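import Pool.Agent.Y660.ST.Hgt

/-!
# On good windows every local function is an affine function of the letters
-/

set_option autoImplicit false

namespace Pool.Agent.Y660.ST

open Finset

variable {φ : ℝ}

/-- on good windows, `F` is an affine function of the first `n` letters -/
def Aff (φ : ℝ) (n : ℕ) (F : Conf → ℝ) : Prop := ∃ b0 : ℝ, ∃ b : ℕ → ℝ, ∀ X : Conf,
  G (hgt φ X) 0 n → F X = b0 + ∑ l ∈ range n, b l * (zz X l - φ)

lemma Aff.congr {n : ℕ} {F F' : Conf → ℝ} (h : Aff φ n F)
    (hh : ∀ X, G (hgt φ X) 0 n → F' X = F X) : Aff φ n F' := by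
  obtain ⟨b0, b, hb⟩ := h
  exact ⟨b0, b, fun X hX => (hh X hX).trans (hb X hX)⟩

lemma aff_const (n : ℕ) (c : ℝ) : Aff φ n fun _ => c := ⟨c, fun _ => 0, fun X _ => by simp⟩

lemma Aff.add {n : ℕ} {F F' : Conf → ℝ} (h : Aff φ n F) (h' : Aff φ n F') :
    Aff φ n fun X => F X + F' X := by
  obtain ⟨b0, b, hb⟩ := h
  obtain ⟨c0, c, hc⟩ := h'
  refine ⟨b0 + c0, fun l => b l + c l, fun X hX => ?_⟩
  show F X + F' X = _
  rw [hb X hX, hc X hX]
  simp only [add_mul, sum_add_distrib]
  ring

lemma Aff.smul {n : ℕ} {F : Conf → ℝ} (h : Aff φ n F) (t : ℝ) : Aff φ n fun X => t * F X := by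
  obtain ⟨b0, b, hb⟩ := h
  refine ⟨t * b0, fun l => t * b l, fun X hX => ?_⟩
  show t * F X = _
  rw [hb X hX, mul_add, mul_sum]
  simp only [mul_assoc]

lemma Aff.sum {ι : Type} {n : ℕ} {F : ι → Conf → ℝ} (S : Finset ι) (h : ∀ i ∈ S, Aff φ n (F i)) :
    Aff φ n fun X => ∑ i ∈ S, F i X := by
  classical
  induction S using Finset.induction_on with
  | empty => simpa using aff_const n 0
  | insert a S ha ih =>
    have h1 := (h a (mem_insert_self _ _)).add (ih fun i hi => h i (mem_insert_of_mem hi))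
    exact h1.congr fun X _ => by rw [sum_insert ha]

lemma aff_letter {n l : ℕ} (h : l < n) : Aff φ n fun X => zz X l - φ := by
  refine ⟨0, fun m => if m = l then 1 else 0, fun X _ => ?_⟩
  simp [h]

lemma hgt_nat (X : Conf) (m : ℕ) : hgt φ X m = ∑ l ∈ range m, (zz X l - φ) := by
  induction m with
  | zero => simp [hgt_zero]
  | succ m ih =>
    rw [sum_range_succ, ← ih]
    push_cast
    rw [hgt_succ]

lemma aff_hgt {n m : ℕ} (h : m ≤ n) : Aff φ n fun X => hgt φ X m := by
  simp only [hgt_nat]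
  refine Aff.sum _ fun l hl => aff_letter ?_
  rw [mem_range] at hl
  omega

/-- the two values of the normalised heights -/
lemma two_val {X : Conf} {n m : ℕ} (hm : m ≤ n) (hX : G (hgt φ X) 0 n) :
    hgt φ X m + Int.fract (m * φ) = 0 ∨ hgt φ X m + Int.fract (m * φ) = 1 := by
  obtain ⟨z, hz⟩ := stp_int (hgt_stp φ X) 0 m
  rw [zero_add, hgt_zero] at hz
  have h1 := hX m ⟨by omega, by exact_mod_cast hm⟩ 0 ⟨le_rfl, by omega⟩
  have h2 := hX 0 ⟨le_rfl, by omega⟩ m ⟨by omega, by exact_mod_cast hm⟩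
  rw [hgt_zero] at h1 h2
  have g0 := Int.fract_nonneg (m * φ)
  have g1 := Int.fract_lt_one (m * φ)
  have e : hgt φ X m + Int.fract (m * φ) = ((z - ⌊m * φ⌋ : ℤ) : ℝ) := by
    rw [hz]; unfold Int.fract; push_cast; ring
  have h3 : (-1 : ℝ) < ((z - ⌊m * φ⌋ : ℤ) : ℝ) := by rw [← e]; linarith
  have h4 : ((z - ⌊m * φ⌋ : ℤ) : ℝ) < 2 := by rw [← e]; linarith
  have h5 : -1 < z - ⌊m * φ⌋ := by exact_mod_cast h3
  have h6 : z - ⌊m * φ⌋ < 2 := by exact_mod_cast h4
  rw [e]
  rcases (by omega : z - ⌊m * φ⌋ = 0 ∨ z - ⌊m * φ⌋ = 1) with h | h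
  · left; rw [h]; simp
  · right; rw [h]; simp

lemma nested {n m m' : ℕ} (hm : m ≤ n) (hm' : m' ≤ n)
    (h : Int.fract (m * φ) ≤ Int.fract (m' * φ)) {X : Conf} (hX : G (hgt φ X) 0 n) :
    (hgt φ X m + Int.fract (m * φ)) * (hgt φ X m' + Int.fract (m' * φ)) =
      hgt φ X m + Int.fract (m * φ) := by
  rcases two_val hm hX with h1 | h1
  · rw [h1]; ring
  · rcases two_val hm' hX with h2 | h2
    · exfalso
      have h3 := hX m ⟨by omega, by exact_mod_cast hm⟩ m' ⟨by omega, by exact_mod_cast hm'⟩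
      linarith
    · rw [h2]; ring

lemma aff_hgt_mul {n m m' : ℕ} (hm : m ≤ n) (hm' : m' ≤ n) :
    Aff φ n fun X => hgt φ X m * hgt φ X m' := by
  have key : Aff φ n fun X => (hgt φ X m + Int.fract (m * φ)) *
      (hgt φ X m' + Int.fract (m' * φ)) := by
    rcases le_total (Int.fract (m * φ)) (Int.fract (m' * φ)) with h | h
    · exact ((aff_hgt hm).add (aff_const n (Int.fract (m * φ)))).congr
        fun X hX => nested hm hm' h hX
    · refine ((aff_hgt hm').add (aff_const n (Int.fract (m' * φ)))).congr fun X hX => ?_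
      rw [mul_comm]
      exact nested hm' hm h hX
  have h1 := (key.add (((aff_hgt hm).smul (-Int.fract (m' * φ))).add
    ((aff_hgt hm').smul (-Int.fract (m * φ))))).add
      (aff_const n (-(Int.fract (m * φ) * Int.fract (m' * φ))))
  refine h1.congr fun X _ => ?_
  ring

lemma aff_letter_mul {n l l' : ℕ} (hl : l < n) (hl' : l' < n) :
    Aff φ n fun X => (zz X l - φ) * (zz X l' - φ) := by
  have h1 := aff_hgt_mul (φ := φ) (n := n) (m := l + 1) (m' := l' + 1) hl hl'
  have h2 := (aff_hgt_mul (φ := φ) (n := n) (m := l + 1) (m' := l') hl hl'.le).smul (-1)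
  have h3 := (aff_hgt_mul (φ := φ) (n := n) (m := l) (m' := l' + 1) hl.le hl').smul (-1)
  have h4 := aff_hgt_mul (φ := φ) (n := n) (m := l) (m' := l') hl.le hl'.le
  refine (((h1.add h2).add h3).add h4).congr fun X _ => ?_
  have e1 := hgt_succ φ X l
  have e2 := hgt_succ φ X l'
  push_cast
  rw [e1, e2]
  ring

lemma Aff.mul {n : ℕ} {F F' : Conf → ℝ} (h : Aff φ n F) (h' : Aff φ n F') :
    Aff φ n fun X => F X * F' X := by
  obtain ⟨b0, b, hb⟩ := h
  obtain ⟨c0, c, hc⟩ := h'
  have h1 : Aff φ n fun X => ∑ l ∈ range n, ∑ l' ∈ range n,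
      (b l * c l') * ((zz X l - φ) * (zz X l' - φ)) := by
    refine Aff.sum _ fun l hl => Aff.sum _ fun l' hl' => ?_
    rw [mem_range] at hl hl'
    exact (aff_letter_mul hl hl').smul _
  have h2 : Aff φ n fun X => ∑ l ∈ range n, (b0 * c l + c0 * b l) * (zz X l - φ) := by
    refine Aff.sum _ fun l hl => ?_
    rw [mem_range] at hl
    exact (aff_letter hl).smul _
  refine ((h1.add h2).add (aff_const n (b0 * c0))).congr fun X hX => ?_
  rw [hb X hX, hc X hX]
  have e : ∑ l ∈ range n, ∑ l' ∈ range n, (b l * c l') * ((zz X l - φ) * (zz X l' - φ)) =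
      (∑ l ∈ range n, b l * (zz X l - φ)) * ∑ l ∈ range n, c l * (zz X l - φ) := by
    rw [sum_mul_sum]
    exact sum_congr rfl fun l _ => sum_congr rfl fun l' _ => by ring
  have e2 : ∑ l ∈ range n, (b0 * c l + c0 * b l) * (zz X l - φ) =
      b0 * ∑ l ∈ range n, c l * (zz X l - φ) + c0 * ∑ l ∈ range n, b l * (zz X l - φ) := by
    rw [mul_sum, mul_sum, ← sum_add_distrib]
    exact sum_congr rfl fun l _ => by ring
  rw [e, e2]
  ring

/-- the function `F` depends only on the letters `0, …, n - 1` -/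
def Loc (n : ℕ) (F : Conf → ℝ) : Prop :=
  ∀ X Y : Conf, (∀ i : ℤ, 0 ≤ i → i < n → X i = Y i) → F X = F Y

/-- **On good windows every local function is an affine function of the letters.** -/
lemma aff_of_loc (n : ℕ) : ∀ j : ℕ, j ≤ n → ∀ F : Conf → ℝ, Loc j F → Aff φ n F := by
  intro j
  induction j with
  | zero =>
    intro _ F hF
    refine (aff_const n (F fun _ => 0)).congr fun X _ => hF X _ fun i h1 h2 => ?_
    push_cast at h2; omega
  | succ j ih =>
    intro hj F hF
    have h0 : Aff φ n fun X => F (Function.update X (j : ℤ) 0) := by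
      refine ih (by omega) _ fun X Y hXY => hF _ _ fun i h1 h2 => ?_
      by_cases hi : i = j
      · subst hi; simp
      · rw [Function.update_of_ne hi, Function.update_of_ne hi]
        push_cast at h2
        exact hXY i h1 (by omega)
    have h1 : Aff φ n fun X => F (Function.update X (j : ℤ) 1) := by
      refine ih (by omega) _ fun X Y hXY => hF _ _ fun i h1 h2 => ?_
      by_cases hi : i = j
      · subst hi; simp
      · rw [Function.update_of_ne hi, Function.update_of_ne hi]
        push_cast at h2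
        exact hXY i h1 (by omega)
    have h2 : Aff φ n fun X => zz X j := by
      refine ((aff_letter (by omega : j < n)).add (aff_const n φ)).congr fun X _ => by ring
    have h3 : Aff φ n fun X => 1 + (-1) * zz X j := (aff_const n 1).add (h2.smul (-1))
    refine ((h2.mul h0).add (h3.mul h1)).congr fun X _ => ?_
    rcases zz_cases X j with ⟨h4, h5⟩ | ⟨h4, h5⟩
    · have : Function.update X (j : ℤ) 0 = X := by rw [← h4, Function.update_eq_self]
      rw [h5, this]; ring
    · have h6 : X j = 1 := by omega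
      have : Function.update X (j : ℤ) 1 = X := by rw [← h6, Function.update_eq_self]
      rw [h5, this]; ring

end Pool.Agent.Y660.ST
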