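import Mathlib

/-!
# Classical lattice-gas models on the one-dimensional lattice: definitions

MP_084e97_mp (helper660).
-/

set_option autoImplicit false

namespace Pool.Agent.Y660.ST

open MeasureTheory

/-- configurations: the elements of `{0,1}^ℤ` -/
abbrev Conf : Type := ℤ → Fin 2

/-- the shift: `(T_a X)_i = X_{i - a}` -/
def shift (a : ℤ) (X : Conf) : Conf := fun i => X (i - a)

/-- interactions: translation-invariant families of functions `Φ_Λ` on `{0,1}^Λ`, where `Λ` runs
through the finite subsets of `ℤ` -/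
structure Interaction where
  /-- the function `Φ_Λ`, as a function on configurations -/
  val : Finset ℤ → Conf → ℝ
  /-- `Φ_Λ` depends only on the restriction to `Λ` -/
  loc : ∀ Λ X Y, (∀ i ∈ Λ, X i = Y i) → val Λ X = val Λ Y
  /-- translation invariance -/
  inv : ∀ (a : ℤ) Λ X, val (Λ.image fun i => i + a) (shift a X) = val Λ X

/-- the norm `‖Φ_Λ‖_∞` -/
noncomputable def nrm (Φ : Interaction) (Λ : Finset ℤ) : ℝ := ⨆ X, |Φ.val Λ X|

/-- summable interactions: the sum of `‖Φ_Λ‖_∞` over the finite sets `Λ` containing `0` is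
finite -/
def IsSummable (Φ : Interaction) : Prop := Summable fun Λ : {Λ : Finset ℤ // 0 ∈ Λ} => nrm Φ Λ

/-- finite-range interactions: `Φ_Λ = 0` whenever the diameter of `Λ` exceeds some `r` -/
def FinRange (Φ : Interaction) : Prop := ∃ r : ℤ, ∀ Λ : Finset ℤ,
  (∃ i ∈ Λ, ∃ j ∈ Λ, r < j - i) → ∀ X, Φ.val Λ X = 0

/-- `Y` is a local excitation of `X` -/
def Exc (Y X : Conf) : Prop := {i | Y i ≠ X i}.Finite

/-- the relative Hamiltonian `H(Y|X) = ∑ Λ, (Φ_Λ(Y) - Φ_Λ(X))` -/
noncomputable def rel (Φ : Interaction) (Y X : Conf) : ℝ := ∑' Λ, (Φ.val Λ Y - Φ.val Λ X)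

/-- ground-state configurations -/
def IsGSC (Φ : Interaction) (X : Conf) : Prop := ∀ Y, Exc Y X → 0 ≤ rel Φ Y X

/-- translation-invariant probability measures -/
def Inv (μ : Measure Conf) : Prop := IsProbabilityMeasure μ ∧ ∀ a, μ.map (shift a) = μ

/-- ground states: translation-invariant probability measures supported on ground-state
configurations -/
def IsGS (Φ : Interaction) (μ : Measure Conf) : Prop := Inv μ ∧ ∀ᵐ X ∂μ, IsGSC Φ X

/-- the perturbed interaction `H + ε H'` -/
def pert (Φ Ψ : Interaction) (ε : ℝ) : Interaction where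
  val Λ X := Φ.val Λ X + ε * Ψ.val Λ X
  loc Λ X Y h := by rw [Φ.loc Λ X Y h, Ψ.loc Λ X Y h]
  inv a Λ X := by rw [Φ.inv a Λ X, Ψ.inv a Λ X]

/-- the Sturmian sequence generated by `φ` -/
noncomputable def st (φ : ℝ) : Conf := fun n => if Int.fract (n * φ) < φ then 0 else 1

/-- the closure of the orbit of the Sturmian sequence -/
def GSt (φ : ℝ) : Set Conf := closure (Set.range fun a => shift a (st φ))

/-- the translation-invariant probability measures carried by the closure of the orbit of the
Sturmian sequence -/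
def IsSturm (φ : ℝ) (μ : Measure Conf) : Prop := Inv μ ∧ ∀ᵐ X ∂μ, X ∈ GSt φ

end Pool.Agent.Y660.ST
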