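import Pool.Agent.Y660.ST.Seq

/-!
# Sums of the sawtooth function along the rotation by a Diophantine number
-/

set_option autoImplicit false

namespace Pool.Agent.Y660.ST

open Finset

/-- Diophantine numbers -/
def Dioph (φ : ℝ) : Prop := ∃ c : ℝ, 0 < c ∧ ∃ d : ℕ, ∀ q : ℕ, 0 < q → ∀ p : ℤ,
  c ≤ (q : ℝ) ^ d * |q * φ - p|

/-- Hermite's identity for the fractional parts -/
lemma hermite (q : ℕ) (hq : 0 < q) (y : ℝ) :
    ∑ l ∈ range q, Int.fract (y + l / q) = (q - 1) / 2 + Int.fract (q * y) := by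
  have hq' : (0 : ℝ) < q := by exact_mod_cast hq
  -- reduction to `0 ≤ y < 1 / q`
  have per : ∀ y : ℝ, ∑ l ∈ range q, Int.fract (y + 1 / q + l / q) =
      ∑ l ∈ range q, Int.fract (y + l / q) := by
    intro y
    have h1 := Finset.sum_range_succ' (fun l : ℕ => Int.fract (y + l / q)) q
    rw [Finset.sum_range_succ] at h1
    have h2 : Int.fract (y + (q : ℕ) / q) = Int.fract (y + (0 : ℕ) / q) := by
      rw [div_self hq'.ne']; simp
    have h3 : ∀ l ∈ range q, Int.fract (y + 1 / q + l / q) =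
        Int.fract (y + ((l + 1 : ℕ) : ℝ) / q) := by
      intro l _
      congr 1
      push_cast
      ring
    rw [sum_congr rfl h3]
    linarith
  have perz : ∀ (z : ℤ) (y : ℝ), ∑ l ∈ range q, Int.fract (y + z / q + l / q) =
      ∑ l ∈ range q, Int.fract (y + l / q) := by
    intro z
    induction z using Int.induction_on with
    | zero => intro y; simp
    | succ n ih =>
      intro y
      have := per (y + n / q)
      have e : y + (((n : ℤ) + 1 : ℤ) : ℝ) / q = y + n / q + 1 / q := by push_cast; ring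
      rw [e, this]
      have := ih y
      push_cast at this
      exact this
    | pred n ih =>
      intro y
      have := per (y + ((-(n : ℤ) - 1 : ℤ) : ℝ) / q)
      rw [← this]
      have e : y + ((-(n : ℤ) - 1 : ℤ) : ℝ) / q + 1 / q = y + ((-(n : ℤ) : ℤ) : ℝ) / q := by
        push_cast; ring
      rw [e]
      exact ih y
  set z : ℤ := ⌊q * y⌋ with hz
  set y' : ℝ := y - z / q with hy'
  have hy : y = y' + z / q := by rw [hy']; ring
  have hf : Int.fract (q * y) = q * y' := by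
    rw [hy', Int.fract, ← hz]
    field_simp
  have h0 : 0 ≤ q * y' := by rw [← hf]; exact Int.fract_nonneg _
  have h1 : q * y' < 1 := by rw [← hf]; exact Int.fract_lt_one _
  rw [hf]
  conv_lhs => rw [hy]
  rw [perz z y']
  have h2 : ∀ l ∈ range q, Int.fract (y' + l / q) = y' + l / q := by
    intro l hl
    rw [mem_range] at hl
    rw [Int.fract_eq_self]
    have hl' : (l : ℝ) + 1 ≤ q := by exact_mod_cast hl
    constructor
    · have : 0 ≤ y' := by
        by_contra hc
        nlinarith [not_le.1 hc]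
      positivity
    · have e : y' + l / q = (q * y' + l) / q := by field_simp
      rw [e, div_lt_one hq']
      linarith
  rw [sum_congr rfl h2, sum_add_distrib, ← sum_div, sum_const, card_range, nsmul_eq_mul]
  have h3 : (∑ l ∈ range q, (l : ℝ)) = q * (q - 1) / 2 := by
    have := Finset.sum_range_id_mul_two q
    have h4 : ((∑ l ∈ range q, l : ℕ) : ℝ) * 2 = q * (q - 1) := by
      have h5 : ((∑ l ∈ range q, l) * 2 : ℕ) = q * (q - 1) := this
      have h6 := congrArg (fun n : ℕ => (n : ℝ)) h5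
      push_cast [Nat.cast_sub (Nat.succ_le_of_lt hq)] at h6
      push_cast
      linarith
    push_cast at h4
    linarith
  rw [h3]
  field_simp
  ring

/-- the sum along a rational rotation -/
lemma rat_sum (q : ℕ) (hq : 0 < q) (p : ℤ) (hpq : IsCoprime p (q : ℤ)) (y : ℝ) :
    ∑ j ∈ range q, Int.fract (y + j * (p / q)) = (q - 1) / 2 + Int.fract (q * y) := by
  rw [← hermite q hq y]
  have hq' : (0 : ℝ) < q := by exact_mod_cast hq
  have hqz : (0 : ℤ) < q := by exact_mod_cast hq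
  have h1 : ∀ j ∈ range q, Int.fract (y + j * (p / q)) =
      Int.fract (y + ((((j : ℤ) * p) % q).toNat : ℝ) / q) := by
    intro j _
    have e1 : (((((j : ℤ) * p) % q).toNat : ℤ) : ℝ) = (((j : ℤ) * p - q * ((j * p) / q) : ℤ) : ℝ) := by
      congr 1
      rw [Int.toNat_of_nonneg (Int.emod_nonneg _ hqz.ne')]
      have := Int.emod_add_mul_ediv ((j : ℤ) * p) q
      linarith
    have e2 : ((((j : ℤ) * p) % q).toNat : ℝ) = (j : ℝ) * p - q * (((j * p) / q : ℤ) : ℝ) := by
      push_cast at e1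
      push_cast
      exact_mod_cast e1
    rw [e2]
    have e3 : y + (j : ℝ) * (p / q) = y + ((j : ℝ) * p - q * (((j * p) / q : ℤ) : ℝ)) / q +
        (((j * p) / q : ℤ) : ℝ) := by
      field_simp
      ring
    rw [e3, Int.fract_add_intCast]
  rw [sum_congr rfl h1]
  have hmap : Set.MapsTo (fun j : ℕ => (((j : ℤ) * p) % q).toNat) (range q) (range q) := by
    intro j _
    simp only [coe_range, Set.mem_Iio]
    have := Int.emod_lt_of_pos ((j : ℤ) * p) hqz
    have := Int.emod_nonneg ((j : ℤ) * p) hqz.ne'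
    omega
  have hinj : Set.InjOn (fun j : ℕ => (((j : ℤ) * p) % q).toNat) (range q) := by
    intro a ha b hb hab
    simp only [coe_range, Set.mem_Iio] at ha hb
    have h2 : ((a : ℤ) * p) % q = ((b : ℤ) * p) % q := by
      have := Int.emod_nonneg ((a : ℤ) * p) hqz.ne'
      have := Int.emod_nonneg ((b : ℤ) * p) hqz.ne'
      simp only at hab
      omega
    have h3 : (q : ℤ) ∣ (a - b) * p := by
      rw [sub_mul]
      have h2' : (b : ℤ) * p ≡ (a : ℤ) * p [ZMOD q] := h2.symm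
      exact h2'.dvd
    have h4 : (q : ℤ) ∣ (a - b) := hpq.symm.dvd_of_dvd_mul_right h3
    obtain ⟨c, hc⟩ := h4
    have h5 : c = 0 := by
      by_contra hne
      have : (q : ℤ) ≤ |(a : ℤ) - b| := by
        rw [hc, abs_mul, abs_of_pos hqz]
        exact le_mul_of_one_le_right hqz.le (Int.one_le_abs hne)
      rw [le_abs] at this
      omega
    rw [h5] at hc
    omega
  refine Finset.sum_nbij (fun j : ℕ => (((j : ℤ) * p) % q).toNat) (fun j hj => by
    simpa using hmap (by simpa using hj)) hinj ?_ fun j _ => rfl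
  exact Finset.surjOn_of_injOn_of_card_le _ hmap hinj le_rfl

/-- the sums over blocks of the length of a good denominator are bounded -/
lemma block {φ : ℝ} {q : ℕ} (hq : 0 < q) {p : ℤ} (hpq : IsCoprime p (q : ℤ))
    (h : |φ - p / q| ≤ 1 / (q : ℝ) ^ 2) (y : ℝ) :
    |∑ j ∈ range q, (Int.fract (y + j * φ) - 1 / 2)| ≤ 5 / 2 := by
  have hq' : (0 : ℝ) < q := by exact_mod_cast hq
  have hq1 : (1 : ℝ) ≤ q := by exact_mod_cast hq
  -- the displacement
  have hv : ∀ j ∈ range q, |(j : ℝ) * (φ - p / q)| ≤ 1 / q := by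
    intro j hj
    rw [mem_range] at hj
    have hj' : (j : ℝ) ≤ q := by exact_mod_cast hj.le
    rw [abs_mul, abs_of_nonneg (by positivity : (0 : ℝ) ≤ j)]
    calc (j : ℝ) * |φ - p / q| ≤ q * (1 / (q : ℝ) ^ 2) := by gcongr
      _ = 1 / q := by field_simp
  have hfl : ∀ z : ℝ, ∑ j ∈ range q, ((⌊z + j * (p / q)⌋ : ℤ) : ℝ) =
      ∑ j ∈ range q, (z + j * (p / q)) - (q - 1) / 2 - Int.fract (q * z) := by
    intro z
    have := rat_sum q hq p hpq z
    unfold Int.fract at *
    rw [sum_sub_distrib] at this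
    linarith
  have up : ∑ j ∈ range q, ((⌊y + j * φ⌋ : ℤ) : ℝ) ≤
      ∑ j ∈ range q, ((⌊(y + 1 / q) + j * (p / q)⌋ : ℤ) : ℝ) := by
    refine sum_le_sum fun j hj => ?_
    have := abs_le.1 (hv j hj)
    have h2 : y + j * φ ≤ (y + 1 / q) + j * (p / q) := by linarith [this.2]
    exact_mod_cast Int.floor_le_floor h2
  have lo : ∑ j ∈ range q, ((⌊(y - 1 / q) + j * (p / q)⌋ : ℤ) : ℝ) ≤
      ∑ j ∈ range q, ((⌊y + j * φ⌋ : ℤ) : ℝ) := by
    refine sum_le_sum fun j hj => ?_
    have := abs_le.1 (hv j hj)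
    have h2 : (y - 1 / q) + j * (p / q) ≤ y + j * φ := by linarith [this.1]
    exact_mod_cast Int.floor_le_floor h2
  rw [hfl] at up lo
  have f1 : Int.fract ((q : ℝ) * (y + 1 / q)) = Int.fract (q * y) := by
    have : (q : ℝ) * (y + 1 / q) = q * y + (1 : ℤ) := by field_simp; push_cast; ring
    rw [this, Int.fract_add_intCast]
  have f2 : Int.fract ((q : ℝ) * (y - 1 / q)) = Int.fract (q * y) := by
    have : (q : ℝ) * (y - 1 / q) = q * y + ((-1 : ℤ) : ℝ) := by field_simp; push_cast; ring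
    rw [this, Int.fract_add_intCast]
  rw [f1] at up
  rw [f2] at lo
  have s1 : ∑ j ∈ range q, ((y + 1 / q) + (j : ℝ) * (p / q)) =
      ∑ j ∈ range q, (y + (j : ℝ) * (p / q)) + 1 := by
    have : ∀ j ∈ range q, ((y + 1 / q) + (j : ℝ) * (p / q)) = (y + (j : ℝ) * (p / q)) + 1 / q :=
      fun j _ => by ring
    rw [sum_congr rfl this, sum_add_distrib]
    simp [hq'.ne']
  have s2 : ∑ j ∈ range q, ((y - 1 / q) + (j : ℝ) * (p / q)) =
      ∑ j ∈ range q, (y + (j : ℝ) * (p / q)) - 1 := by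
    have : ∀ j ∈ range q, ((y - 1 / q) + (j : ℝ) * (p / q)) = (y + (j : ℝ) * (p / q)) - 1 / q :=
      fun j _ => by ring
    rw [sum_congr rfl this, sum_sub_distrib]
    simp [hq'.ne']
  rw [s1] at up
  rw [s2] at lo
  have s3 : |∑ j ∈ range q, ((j : ℝ) * (φ - p / q))| ≤ 1 := by
    refine (abs_sum_le_sum_abs _ _).trans ((sum_le_sum hv).trans ?_)
    simp [hq'.ne']
  have s4 : ∑ j ∈ range q, (y + j * φ) = ∑ j ∈ range q, (y + (j : ℝ) * (p / q)) +
      ∑ j ∈ range q, ((j : ℝ) * (φ - p / q)) := by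
    rw [← sum_add_distrib]
    exact sum_congr rfl fun j _ => by ring
  have s5 : ∑ j ∈ range q, (Int.fract (y + j * φ) - 1 / 2) =
      ∑ j ∈ range q, (y + j * φ) - ∑ j ∈ range q, ((⌊y + j * φ⌋ : ℤ) : ℝ) - q / 2 := by
    unfold Int.fract
    rw [sum_sub_distrib, sum_sub_distrib]
    simp
    ring
  rw [s5, s4]
  have g0 := Int.fract_nonneg ((q : ℝ) * y)
  have g1 := Int.fract_lt_one ((q : ℝ) * y)
  rw [abs_le] at *
  constructor <;> linarith [s3.1, s3.2]

lemma sum_split {φ : ℝ} (q m : ℕ) (y : ℝ) :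
    ∑ j ∈ range (q + m), (Int.fract (y + j * φ) - 1 / 2) =
      ∑ j ∈ range q, (Int.fract (y + j * φ) - 1 / 2) +
        ∑ j ∈ range m, (Int.fract ((y + q * φ) + j * φ) - 1 / 2) := by
  rw [sum_range_add]
  congr 1
  refine sum_congr rfl fun j _ => ?_
  congr 2
  push_cast
  ring

lemma triv (φ : ℝ) (m : ℕ) (y : ℝ) :
    |∑ j ∈ range m, (Int.fract (y + j * φ) - 1 / 2)| ≤ m / 2 := by
  refine (abs_sum_le_sum_abs _ _).trans ?_
  have : ∀ j ∈ range m, |Int.fract (y + j * φ) - 1 / 2| ≤ 1 / 2 := by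
    intro j _
    have g0 := Int.fract_nonneg (y + j * φ)
    have g1 := Int.fract_lt_one (y + j * φ)
    rw [abs_le]
    constructor <;> linarith
  refine (sum_le_sum this).trans ?_
  simp
  ring_nf
  exact le_rfl

lemma blocks {φ : ℝ} {q : ℕ} (hq : 0 < q) {p : ℤ} (hpq : IsCoprime p (q : ℤ))
    (h : |φ - p / q| ≤ 1 / (q : ℝ) ^ 2) (t r : ℕ) (y : ℝ) :
    |∑ j ∈ range (q * t + r), (Int.fract (y + j * φ) - 1 / 2)| ≤ 5 / 2 * t + r / 2 := by
  induction t generalizing y with
  | zero => simpa using triv φ r y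
  | succ t ih =>
    have e : q * (t + 1) + r = q + (q * t + r) := by ring
    rw [e, sum_split]
    refine (abs_add_le _ _).trans ?_
    have h1 := block hq hpq h y
    have h2 := ih (y + q * φ)
    push_cast
    linarith

/-- every Diophantine number admits a bound with a power saving -/
lemma Dioph.bd {φ : ℝ} (h : Dioph φ) : ∃ (C a : ℝ), 0 < C ∧ 0 < a ∧ a < 1 ∧
    Bd φ (fun m => C * (m : ℝ) ^ a) := by
  obtain ⟨c, hc, d, hd⟩ := h
  set D : ℝ := d + 1 with hD
  have hD1 : 1 ≤ D := by rw [hD]; have : (0 : ℝ) ≤ d := by positivity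
                         linarith
  have hD0 : 0 < D := by linarith
  set a : ℝ := 1 - 1 / (2 * D) with ha
  have ha1 : 1 / (2 * D) ≤ 1 / 2 := by
    rw [div_le_div_iff₀ (by positivity) (by norm_num)]; linarith
  have ha0 : 0 < 1 / (2 * D) := by positivity
  set C : ℝ := 3 * c ^ (-(1 / D)) + 1 with hC
  have hCp : 0 < C := by positivity
  refine ⟨C, a, hCp, by rw [ha]; linarith, by rw [ha]; linarith, ?_, ?_⟩
  · intro m m' hmm
    have : (m : ℝ) ≤ m' := by exact_mod_cast hmm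
    show C * (m : ℝ) ^ a ≤ C * (m' : ℝ) ^ a
    have h0 : 0 ≤ a := by rw [ha]; linarith
    gcongr
  · intro m y
    rcases Nat.eq_zero_or_pos m with rfl | hm
    · simp
      have h0 : a ≠ 0 := by rw [ha]; linarith
      rw [Real.zero_rpow h0]; simp
    set n := Nat.sqrt m with hn
    have hn0 : 0 < n := Nat.sqrt_pos.2 hm
    obtain ⟨r, hr1, hr2⟩ := Real.exists_rat_abs_sub_le_and_den_le φ hn0
    set q := r.den with hq
    have hq0 : 0 < q := r.den_pos
    have hqR : (0 : ℝ) < q := by exact_mod_cast hq0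
    have hcop : IsCoprime r.num (q : ℤ) := by
      rw [Int.isCoprime_iff_gcd_eq_one]
      exact r.reduced
    have hr : (r : ℝ) = r.num / q := by
      rw [hq]
      exact_mod_cast (Rat.num_div_den r).symm
    rw [hr] at hr1
    have hqn : (q : ℝ) ≤ n := by exact_mod_cast hr2
    have h1 : |φ - r.num / q| ≤ 1 / (q : ℝ) ^ 2 := by
      refine hr1.trans ?_
      rw [div_le_div_iff₀ (by positivity) (by positivity)]
      nlinarith
    have h2 := blocks hq0 hcop h1 (m / q) (m % q) y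
    rw [Nat.div_add_mod] at h2
    have h3 : ((m / q : ℕ) : ℝ) ≤ m / q := Nat.cast_div_le
    have h4 : ((m % q : ℕ) : ℝ) ≤ q := by exact_mod_cast (Nat.mod_lt m hq0).le
    have h5 : (n : ℝ) ≤ (m : ℝ) ^ ((1 : ℝ) / 2) := by
      rw [← Real.sqrt_eq_rpow]
      exact Real.le_sqrt_of_sq_le (by exact_mod_cast Nat.sqrt_le' m)
    have hmR : (1 : ℝ) ≤ m := by exact_mod_cast hm
    have h6 : (m : ℝ) ^ ((1 : ℝ) / 2) ≤ n + 1 := by
      rw [← Real.sqrt_eq_rpow]
      refine Real.sqrt_le_iff.2 ⟨by positivity, ?_⟩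
      exact_mod_cast (Nat.lt_succ_sqrt' m).le
    -- the lower bound for the denominator
    have h7 : c * (m : ℝ) ^ ((1 : ℝ) / 2) ≤ (q : ℝ) ^ D := by
      have h8 := hd q hq0 r.num
      have h9 : |(q : ℝ) * φ - r.num| ≤ 1 / (n + 1) := by
        have e : (q : ℝ) * φ - r.num = q * (φ - r.num / q) := by field_simp
        rw [e, abs_mul, abs_of_pos hqR]
        calc (q : ℝ) * |φ - r.num / q| ≤ q * (1 / ((n + 1) * q)) := by gcongr
          _ = 1 / (n + 1) := by field_simp
      have h10 : c ≤ (q : ℝ) ^ d * (1 / (n + 1)) := h8.trans (by gcongr)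
      rw [mul_one_div, le_div_iff₀ (by positivity)] at h10
      have h11 : (q : ℝ) ^ d ≤ (q : ℝ) ^ D := by
        have hq1 : (1 : ℝ) ≤ q := by exact_mod_cast hq0
        rw [← Real.rpow_natCast]
        exact Real.rpow_le_rpow_of_exponent_le hq1 (by rw [hD]; linarith)
      calc c * (m : ℝ) ^ ((1 : ℝ) / 2) ≤ c * (n + 1) := by gcongr
        _ ≤ _ := h10.trans h11
    have h8 : c ^ (1 / D) * (m : ℝ) ^ (1 / (2 * D)) ≤ q := by
      have h9 := Real.rpow_le_rpow (by positivity) h7 (by positivity : 0 ≤ 1 / D)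
      rw [← Real.rpow_mul hqR.le, mul_one_div_cancel hD0.ne', Real.rpow_one,
        Real.mul_rpow hc.le (by positivity), ← Real.rpow_mul (by positivity)] at h9
      have e : (1 : ℝ) / 2 * (1 / D) = 1 / (2 * D) := by field_simp
      rwa [e] at h9
    have h9 : (m : ℝ) / q ≤ c ^ (-(1 / D)) * (m : ℝ) ^ a := by
      rw [div_le_iff₀ hqR]
      have e : (m : ℝ) = (c ^ (-(1 / D)) * (m : ℝ) ^ a) * (c ^ (1 / D) * (m : ℝ) ^ (1 / (2 * D))) := by
        have e1 : c ^ (-(1 / D)) * c ^ (1 / D) = 1 := by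
          rw [← Real.rpow_add hc]; simp
        have e2 : (m : ℝ) ^ a * (m : ℝ) ^ (1 / (2 * D)) = m := by
          rw [← Real.rpow_add (by linarith), ha]; simp
        calc (m : ℝ) = 1 * m := by ring
          _ = (c ^ (-(1 / D)) * c ^ (1 / D)) * ((m : ℝ) ^ a * (m : ℝ) ^ (1 / (2 * D))) := by
            rw [e1, e2]
          _ = _ := by ring
      calc (m : ℝ) = (c ^ (-(1 / D)) * (m : ℝ) ^ a) * (c ^ (1 / D) * (m : ℝ) ^ (1 / (2 * D))) := e
        _ ≤ _ := by gcongr
    have h10 : (q : ℝ) ≤ (m : ℝ) ^ a := by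
      refine (hqn.trans h5).trans (Real.rpow_le_rpow_of_exponent_le hmR ?_)
      rw [ha]; linarith
    show _ ≤ C * (m : ℝ) ^ a
    rw [hC]
    calc _ ≤ 5 / 2 * ((m / q : ℕ) : ℝ) + ((m % q : ℕ) : ℝ) / 2 := h2
      _ ≤ 3 * ((m : ℝ) / q) + q := by
        have : (0 : ℝ) ≤ m / q := by positivity
        linarith
      _ ≤ 3 * (c ^ (-(1 / D)) * (m : ℝ) ^ a) + (m : ℝ) ^ a := by linarith
      _ = _ := by ring

/-- `√2 - 1` is Diophantine -/
lemma dioph_sqrt : Dioph (√2 - 1) := by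
  refine ⟨1 / 8, by norm_num, 1, fun q hq p => ?_⟩
  have hqR : (1 : ℝ) ≤ q := by exact_mod_cast hq
  have h2 : √2 ^ 2 = 2 := Real.sq_sqrt (by norm_num)
  have h0 : 0 ≤ √2 := Real.sqrt_nonneg 2
  have h3 : √2 < 3 / 2 := by
    rw [Real.sqrt_lt' (by norm_num)]; norm_num
  rw [pow_one]
  set x : ℝ := q * (√2 - 1) - p with hx
  -- `x = q √2 - (p + q)`
  have h4 : x * (x + 2 * (p + q)) = ((2 * (q : ℤ) ^ 2 - (p + q) ^ 2 : ℤ) : ℝ) := by
    rw [hx]; push_cast
    nlinarith
  have h5 : (2 * (q : ℤ) ^ 2 - (p + q) ^ 2 : ℤ) ≠ 0 := by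
    intro h
    have hirr := irrational_sqrt_two
    apply hirr
    refine ⟨|((p + q : ℤ) : ℚ)| / q, ?_⟩
    have e : ((|((p + q : ℤ) : ℚ)| / q : ℚ) : ℝ) = |((p + q : ℤ) : ℝ)| / q := by push_cast; rfl
    rw [e]
    symm
    rw [Real.sqrt_eq_iff_mul_self_eq (by norm_num) (by positivity)]
    have h6 : (2 : ℝ) * q ^ 2 = ((p + q : ℤ) : ℝ) ^ 2 := by
      have : (2 * (q : ℤ) ^ 2 : ℤ) = (p + q) ^ 2 := by linarith
      exact_mod_cast this
    field_simp
    rw [sq_abs]
    linarith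
  have h6 : (1 : ℝ) ≤ |x * (x + 2 * (p + q))| := by
    rw [h4]
    exact_mod_cast Int.one_le_abs h5
  by_contra hcon
  rw [not_le] at hcon
  have h7 : |x| < 1 / 8 := by
    have := abs_nonneg x
    nlinarith
  have h8 : |x + 2 * (p + q)| ≤ 4 * q := by
    have e : x + 2 * (p + q) = 2 * q * √2 - x := by rw [hx]; ring
    rw [e]
    have h9 := abs_le.1 h7.le
    rw [abs_le]
    constructor
    · nlinarith [mul_nonneg (by linarith : (0 : ℝ) ≤ q) h0]
    · nlinarith
  rw [abs_mul] at h6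
  have h9 : |x| * |x + 2 * (p + q)| ≤ |x| * (4 * q) := by gcongr
  nlinarith

end Pool.Agent.Y660.ST
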