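import Pool.Agent.Y660.ST.Uniq
import Pool.Agent.Y660.ST.Disc

/-!
# The ground states of the perturbed interactions
-/

set_option autoImplicit false

namespace Pool.Agent.Y660.ST

open Finset Filter MeasureTheory

variable {φ : ℝ} {R : ℕ → ℝ}

lemma en_shift (R : ℕ → ℝ) (X : Conf) (m : ℕ) (i : ℤ) :
    en R (hgt φ X) m i = en R (hgt φ (shift (-i) X)) m 0 := by
  classical
  unfold en
  refine sum_congr rfl fun r _ => ?_
  have h := G_congr (φ := φ) (X := shift (-i) X) (Y := X) (a := 0 - r) (b := 0 + r) (c := i)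
    fun l _ _ => by simp [shift]
  have e1 : (0 : ℤ) - r + i = i - r := by ring
  have e2 : (0 : ℤ) + r + i = i + r := by ring
  rw [e1, e2] at h
  by_cases hG : G (hgt φ X) (i - r) (i + r)
  · rw [if_pos hG, if_pos (h.2 hG)]
  · rw [if_neg hG, if_neg fun h2 => hG (h.1 h2)]

lemma en_loc (R : ℕ → ℝ) (m : ℕ) (X Y : Conf) (h : ∀ i ∈ Ico (-(m : ℤ)) m, X i = Y i) :
    en R (hgt φ X) m 0 = en R (hgt φ Y) m 0 := by
  classical
  unfold en
  refine sum_congr rfl fun r hr => ?_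
  rw [mem_Icc] at hr
  have h := G_congr (φ := φ) (X := X) (Y := Y) (a := 0 - r) (b := 0 + r) (c := 0)
    fun l h1 h2 => by
      rw [add_zero]
      exact h l (mem_Ico.2 ⟨by omega, by omega⟩)
  rw [add_zero, add_zero] at h
  by_cases hG : G (hgt φ X) (0 - r) (0 + r)
  · rw [if_pos hG, if_pos (h.1 hG)]
  · rw [if_neg hG, if_neg fun h2 => hG (h.2 h2)]

/-- a local function composed with a shift is local -/
lemma shift_loc {S : Finset ℤ} {F : Conf → ℝ}
    (h : ∀ X Y : Conf, (∀ i ∈ S, X i = Y i) → F X = F Y) (a : ℤ) :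
    ∀ X Y : Conf, (∀ i ∈ S.image fun i => i - a, X i = Y i) → F (shift a X) = F (shift a Y) :=
  fun X Y hXY => h _ _ fun i hi => hXY _ (mem_image_of_mem _ hi)

/-- the energy of a ground state -/
lemma en_le (hR : Adm φ R) {Z : Conf} (hZ : Z ∈ Good φ) {Ψ : Interaction} (hΨ : FinRange Ψ)
    {n : ℕ} (hn1 : 1 ≤ n) (hn : ∀ Λ : Finset ℤ,
    (∃ i ∈ Λ, ∃ j ∈ Λ, (n : ℤ) ≤ j - i) → ∀ X, Ψ.val Λ X = 0) {b0 : ℝ} {b : ℕ → ℝ}
    (hb : ∀ X : Conf, G (hgt φ X) 0 n →
      Bf Ψ n X - (b0 + ∑ l ∈ range n, b l * (zz X l - φ)) = 0) {ε : ℝ} (hε : 0 ≤ ε)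
    {ν : Measure Conf} (hν : Inv ν) (hgs : ∀ᵐ Y ∂ν, IsGSC (pert (Win φ R) Ψ ε) Y) (m : ℕ) :
    ∫ Y, en R (hgt φ Y) m 0 ∂ν ≤ ε * (b0 - ∫ Y, Bf Ψ n Y ∂ν) := by
  have := hν.1
  obtain ⟨M, hM⟩ := bdd_loc _ (loc_S (Bf_loc Ψ n))
  set e := ∫ Y, en R (hgt φ Y) m 0 ∂ν with he
  set β := ∫ Y, Bf Ψ n Y ∂ν with hβ
  set C1 := ∑ l ∈ range n, |b l| + 6 * n * M with hC1
  have key : ∀ N : ℕ, n + m ≤ N → 0 ≤ 2 * NN (Win φ R) - 2 * (N - m) * e +
      ε * ((2 * N - n) * (b0 - β) + C1) := by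
    intro N hN
    have hi1 : ∀ i ∈ Ico (-((N - m : ℕ) : ℤ)) ((N - m : ℕ) : ℤ),
        Integrable (fun Y : Conf => en R (hgt φ Y) m i) ν := by
      intro i _
      simp only [en_shift (φ := φ) R _ m i]
      exact int_loc _ (shift_loc (en_loc R m) (-i))
    have hi2 : ∀ i ∈ Ico (-(N : ℤ)) ((N - n : ℕ) : ℤ),
        Integrable (fun Y : Conf => b0 - Bf Ψ n (shift (-i) Y)) ν := by
      intro i _
      exact (integrable_const b0).sub (int_loc _ (shift_loc (loc_S (Bf_loc Ψ n)) (-i)))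
    have h1 : 0 ≤ᵐ[ν] fun Y => 2 * NN (Win φ R) -
        ∑ i ∈ Ico (-((N - m : ℕ) : ℤ)) ((N - m : ℕ) : ℤ), en R (hgt φ Y) m i +
        ε * (∑ i ∈ Ico (-(N : ℤ)) ((N - n : ℕ) : ℤ), (b0 - Bf Ψ n (shift (-i) Y)) + C1) := by
      filter_upwards [hgs] with Y hY
      have a0 := hY _ (mix_exc N Z Y)
      rw [rel_pert (win_summable hR) (finRange_summable hΨ) ε (mix_exc N Z Y)] at a0
      have a1 := box_win hR hZ Y (N := N) (m := m) (by omega)
      have a2 := box_fin hn1 hn hb hM hZ Y (N := N) (by omega)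
      have a3 := mul_le_mul_of_nonneg_left a2 hε
      show (0 : ℝ) ≤ _
      linarith
    have h2 := integral_nonneg_of_ae h1
    have i1 : Integrable (fun Y : Conf =>
        ∑ i ∈ Ico (-((N - m : ℕ) : ℤ)) ((N - m : ℕ) : ℤ), en R (hgt φ Y) m i) ν :=
      integrable_finset_sum _ hi1
    have i2 : Integrable (fun Y : Conf =>
        ∑ i ∈ Ico (-(N : ℤ)) ((N - n : ℕ) : ℤ), (b0 - Bf Ψ n (shift (-i) Y))) ν :=
      integrable_finset_sum _ hi2
    have e1 : ∫ Y, (2 * NN (Win φ R) -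
        ∑ i ∈ Ico (-((N - m : ℕ) : ℤ)) ((N - m : ℕ) : ℤ), en R (hgt φ Y) m i +
        ε * (∑ i ∈ Ico (-(N : ℤ)) ((N - n : ℕ) : ℤ), (b0 - Bf Ψ n (shift (-i) Y)) + C1)) ∂ν =
        2 * NN (Win φ R) - 2 * (N - m) * e + ε * ((2 * N - n) * (b0 - β) + C1) := by
      have j1 : Integrable (fun Y : Conf => 2 * NN (Win φ R) -
        ∑ i ∈ Ico (-((N - m : ℕ) : ℤ)) ((N - m : ℕ) : ℤ), en R (hgt φ Y) m i) ν :=
        (integrable_const _).sub i1
      have j2 : Integrable (fun Y : Conf =>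
        ∑ i ∈ Ico (-(N : ℤ)) ((N - n : ℕ) : ℤ), (b0 - Bf Ψ n (shift (-i) Y)) + C1) ν :=
        i2.add (integrable_const _)
      rw [integral_add j1 (j2.const_mul ε), integral_const_mul,
        integral_sub (integrable_const _) i1, integral_add i2 (integrable_const _),
        integral_finset_sum _ hi1, integral_finset_sum _ hi2]
      have k1 : ∀ i ∈ Ico (-((N - m : ℕ) : ℤ)) ((N - m : ℕ) : ℤ),
          ∫ Y, en R (hgt φ Y) m i ∂ν = e := by
        intro i _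
        simp only [en_shift (φ := φ) R _ m i]
        exact inv_int hν (-i) _ (F := fun Y => en R (hgt φ Y) m 0) (en_loc R m)
      have k2 : ∀ i ∈ Ico (-(N : ℤ)) ((N - n : ℕ) : ℤ),
          ∫ Y, (b0 - Bf Ψ n (shift (-i) Y)) ∂ν = b0 - β := by
        intro i _
        rw [integral_sub (integrable_const b0)
          (int_loc _ (shift_loc (loc_S (Bf_loc Ψ n)) (-i))),
          inv_int hν (-i) _ (loc_S (Bf_loc Ψ n))]
        simp [hβ]
      rw [sum_congr rfl k1, sum_congr rfl k2]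
      simp only [sum_const, Int.card_Ico, nsmul_eq_mul, integral_const, probReal_univ,
        smul_eq_mul, one_mul]
      have c1 : ((((N - m : ℕ) : ℤ) - -((N - m : ℕ) : ℤ)).toNat : ℝ) = 2 * (N - m) := by
        have : (((N - m : ℕ) : ℤ) - -((N - m : ℕ) : ℤ)).toNat = 2 * (N - m) := by omega
        rw [this]
        push_cast [Nat.cast_sub (by omega : m ≤ N)]
        ring
      have c2 : ((((N - n : ℕ) : ℤ) - -(N : ℤ)).toNat : ℝ) = 2 * N - n := by
        have : (((N - n : ℕ) : ℤ) - -(N : ℤ)).toNat = 2 * N - n := by omega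
        rw [this]
        push_cast [Nat.cast_sub (by omega : n ≤ 2 * N)]
        ring
      rw [c1, c2]
    rw [e1] at h2
    exact h2
  by_contra hcon
  rw [not_le] at hcon
  set t := e - ε * (b0 - β) with ht
  have ht0 : 0 < t := by rw [ht]; linarith
  set Kc := 2 * NN (Win φ R) + ε * C1 + 2 * m * e - ε * n * (b0 - β) with hKc
  obtain ⟨N, hN⟩ := exists_nat_gt (max ((n + m : ℕ) : ℝ) (Kc / (2 * t)))
  have hN1 : n + m ≤ N := by
    have := (le_max_left _ _).trans hN.le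
    exact_mod_cast this
  have hN2 : Kc / (2 * t) < N := (le_max_right _ _).trans_lt hN
  rw [div_lt_iff₀ (by positivity)] at hN2
  have h3 := key N hN1
  have h4 : 2 * NN (Win φ R) - 2 * (N - m) * e + ε * ((2 * N - n) * (b0 - β) + C1) =
      Kc - N * (2 * t) := by
    rw [hKc, ht]; ring
  rw [h4] at h3
  linarith

/-- the frequency of the letter `0` is controlled by the energy -/
lemma freq_le (h0 : 0 < φ) (h1 : φ < 1) (hR : Adm φ R) {ν : Measure Conf} (hν : Inv ν) {k : ℕ}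
    (hk : 1 ≤ k) : |∫ X, zz X 0 ∂ν - φ| ≤
      2688 * ∫ X, en R (hgt φ X) (2 * k) 0 ∂ν + 42 * rho R (k + 1) := by
  have := hν.1
  set g : Conf → ℝ := fun X => f (hgt φ X) k 0 with hg
  have hgl : ∀ X Y : Conf, (∀ i ∈ Ico (-(k : ℤ)) k, X i = Y i) → g X = g Y := by
    intro X Y h
    have h2 := f_cov (s := hgt φ Y) (s' := hgt φ X) (k := k) (i := 0) (i' := 0) (c := 0) hk
      fun l hl => by
        have a := abs_le.1 hl
        have h3 := hgt_congr (φ := φ) (X := X) (Y := Y) (a := -(k : ℤ)) (b := k) (c := 0)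
          (fun l h1 h2 => by rw [add_zero]; exact h l (mem_Ico.2 ⟨h1, h2⟩))
          (i := l) (j := 0) ⟨a.1, a.2⟩ ⟨by omega, by omega⟩
        simp only [add_zero, hgt_zero, sub_zero] at h3
        simp only [zero_add, add_zero]
        exact h3
    rw [add_zero] at h2
    exact h2
  have e1 : ∀ X : Conf, zz X 0 - φ = (f (hgt φ X) k (0 + 1) - f (hgt φ X) k 0) -
      (g (shift (-1) X) - g X) := by
    intro X
    have h2 := f_cov (s := hgt φ (shift (-1) X)) (s' := hgt φ X) (k := k) (i := 0) (i' := 0 + 1)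
      (c := hgt φ X (0 + 1)) hk fun l hl => by
        have a := abs_le.1 hl
        have h3 := hgt_congr (φ := φ) (X := shift (-1) X) (Y := X) (a := -(k : ℤ)) (b := k) (c := 1)
          (fun l h1 h2 => by simp [shift])
          (i := l) (j := 0) ⟨a.1, a.2⟩ ⟨by omega, by omega⟩
        rw [hgt_zero, sub_zero] at h3
        have e : (0 : ℤ) + 1 + l = l + 1 := by ring
        rw [e, zero_add, h3]
        ring
    have h3 := hgt_succ φ X 0
    rw [hgt_zero] at h3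
    rw [h2, h3]
    simp only [hg]
    ring
  have hgi : Integrable g ν := int_loc _ hgl
  have hgi2 : Integrable (fun X => g (shift (-1) X)) ν := int_loc _ (shift_loc hgl (-1))
  have hzi : Integrable (fun X : Conf => zz X 0) ν := int_loc _ (zz_loc 0)
  have hfi : Integrable (fun X : Conf => f (hgt φ X) k (0 + 1) - f (hgt φ X) k 0) ν := by
    have : (fun X : Conf => f (hgt φ X) k (0 + 1) - f (hgt φ X) k 0) =
        fun X => (zz X 0 - φ) + (g (shift (-1) X) - g X) := by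
      funext X; rw [e1 X]; ring
    rw [this]
    exact (hzi.sub (integrable_const φ)).add (hgi2.sub hgi)
  have e2 : ∫ X, zz X 0 ∂ν - φ = ∫ X, (f (hgt φ X) k (0 + 1) - f (hgt φ X) k 0) ∂ν := by
    have a1 : ∫ X, (zz X 0 - φ) ∂ν = ∫ X, zz X 0 ∂ν - φ := by
      rw [integral_sub hzi (integrable_const φ)]; simp
    rw [← a1]
    simp only [e1]
    have hgi3 : Integrable (fun X => g (shift (-1) X) - g X) ν := hgi2.sub hgi
    rw [integral_sub hfi hgi3, integral_sub hgi2 hgi, inv_int hν (-1) _ hgl]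
    ring
  rw [e2]
  have hei : Integrable (fun X : Conf => en R (hgt φ X) (2 * k) 0) ν := int_loc _ (en_loc R (2 * k))
  have h3 : ‖∫ X, (f (hgt φ X) k (0 + 1) - f (hgt φ X) k 0) ∂ν‖ ≤
      ∫ X, (2688 * en R (hgt φ X) (2 * k) 0 + 42 * rho R (k + 1)) ∂ν :=
    norm_integral_le_of_norm_le ((hei.const_mul _).add (integrable_const _))
      (Eventually.of_forall fun X => f_step' h0 h1 hR.toBd (hgt_stp φ X) hk 0)
  rw [integral_add (hei.const_mul _) (integrable_const _), integral_const_mul] at h3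
  simpa using h3

/-- the mean of a local function is controlled by the energy -/
lemma mean_le (h0 : 0 < φ) (h1 : φ < 1) (hR : Adm φ R) {n : ℕ} (hn1 : 1 ≤ n) {F : Conf → ℝ}
    (hF : Loc n F) : ∃ b0 : ℝ, ∃ b : ℕ → ℝ, ∃ C : ℝ, 0 ≤ C ∧
      (∀ X : Conf, G (hgt φ X) 0 n → F X - (b0 + ∑ l ∈ range n, b l * (zz X l - φ)) = 0) ∧
      ∀ ν : Measure Conf, Inv ν → ∀ k : ℕ, n ≤ k → |∫ X, F X ∂ν - b0| ≤
        C * (∫ X, en R (hgt φ X) (2 * k) 0 ∂ν + rho R (k + 1)) := by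
  obtain ⟨M, hM⟩ := bdd_loc _ (loc_S hF)
  obtain ⟨b0, b, C, hC0, hC⟩ := loc_aff h0 h1 hF hM
  have hcf := cf_pos hR.toBd (2 * n)
  refine ⟨b0, b, C / cf R (2 * n) + ∑ l ∈ range n, |b l| * 2688, by positivity,
    fun X => (hC X).2, fun ν hν k hk => ?_⟩
  have := hν.1
  have hei : Integrable (fun X : Conf => en R (hgt φ X) (2 * k) 0) ν := int_loc _ (en_loc R (2 * k))
  have hi : ∀ l ∈ range n, Integrable (fun X : Conf => b l * (zz X l - φ)) ν := fun l _ =>
    ((int_loc {(l : ℤ)} (zz_loc l)).sub (integrable_const φ)).const_mul _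
  have his := integrable_finset_sum _ hi
  have hFi : Integrable F ν := int_loc _ (loc_S hF)
  have hρ := rho_nonneg hR.toBd (k + 1)
  have hA : Integrable (fun X : Conf => b0 + ∑ l ∈ range n, b l * (zz X l - φ)) ν :=
    (integrable_const b0).add his
  have hEi : Integrable (fun X : Conf => F X - (b0 + ∑ l ∈ range n, b l * (zz X l - φ))) ν :=
    hFi.sub hA
  -- the error
  have h2 : ‖∫ X, (F X - (b0 + ∑ l ∈ range n, b l * (zz X l - φ))) ∂ν‖ ≤
      ∫ X, C / cf R (2 * n) * en R (hgt φ X) (2 * k) 0 ∂ν := by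
    refine norm_integral_le_of_norm_le (hei.const_mul _) (Eventually.of_forall fun X => ?_)
    rw [Real.norm_eq_abs]
    by_cases hG : G (hgt φ X) 0 n
    · rw [(hC X).2 hG, abs_zero]
      exact mul_nonneg (by positivity) (en_nonneg hR.toBd _ _ _)
    · have h3 : cf R (2 * n) ≤ en R (hgt φ X) (2 * k) 0 := by
        classical
        unfold en
        have h4 : ¬ G (hgt φ X) (0 - n) (0 + n) := fun h => hG (h.mono (by omega) (by omega))
        have h5 := single_le_sum (f := fun r : ℕ => if G (hgt φ X) (0 - r) (0 + r) then 0 else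
          cf R (2 * r)) (s := Icc 1 (2 * k)) (fun r _ => by
            show (0 : ℝ) ≤ if _ then _ else _
            split_ifs
            · exact le_rfl
            · exact cf_nonneg hR.toBd _) (mem_Icc.2 ⟨hn1, by omega⟩ : n ∈ Icc 1 (2 * k))
        simp only [if_neg h4] at h5
        exact h5
      calc _ ≤ C := (hC X).1
        _ = C / cf R (2 * n) * cf R (2 * n) := by field_simp
        _ ≤ _ := by gcongr
  rw [integral_const_mul] at h2
  have e1 : ∫ X, F X ∂ν - b0 = ∫ X, (F X - (b0 + ∑ l ∈ range n, b l * (zz X l - φ))) ∂ν +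
      ∑ l ∈ range n, b l * (∫ X, zz X 0 ∂ν - φ) := by
    rw [integral_sub hFi hA, integral_add (integrable_const b0) his, integral_finset_sum _ hi]
    have : ∀ l ∈ range n, ∫ X, b l * (zz X l - φ) ∂ν = b l * (∫ X, zz X 0 ∂ν - φ) := by
      intro l _
      rw [integral_const_mul, integral_sub (int_loc {(l : ℤ)} (zz_loc l)) (integrable_const φ),
        int_zz hν]
      simp
    rw [sum_congr rfl this]
    simp only [integral_const, probReal_univ, smul_eq_mul, one_mul]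
    ring
  have hfr := freq_le h0 h1 hR hν (k := k) (by omega)
  have he0 : 0 ≤ ∫ X, en R (hgt φ X) (2 * k) 0 ∂ν := integral_nonneg fun X => en_nonneg hR.toBd _ _ _
  rw [e1]
  refine (abs_add_le _ _).trans ?_
  rw [Real.norm_eq_abs] at h2
  have h3 : |∑ l ∈ range n, b l * (∫ X, zz X 0 ∂ν - φ)| ≤ ∑ l ∈ range n, |b l| * 2688 *
      (∫ X, en R (hgt φ X) (2 * k) 0 ∂ν + rho R (k + 1)) := by
    refine (abs_sum_le_sum_abs _ _).trans (sum_le_sum fun l _ => ?_)
    rw [abs_mul, mul_assoc]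
    gcongr
    linarith
  have h5 : ∑ l ∈ range n, |b l| * 2688 *
      (∫ X, en R (hgt φ X) (2 * k) 0 ∂ν + rho R (k + 1)) = (∑ l ∈ range n, |b l| * 2688) *
      (∫ X, en R (hgt φ X) (2 * k) 0 ∂ν + rho R (k + 1)) := (sum_mul _ _ _).symm
  rw [h5] at h3
  have h4 : C / cf R (2 * n) * ∫ X, en R (hgt φ X) (2 * k) 0 ∂ν ≤
      C / cf R (2 * n) * (∫ X, en R (hgt φ X) (2 * k) 0 ∂ν + rho R (k + 1)) := by
    gcongr
    linarith
  linarith

/-- **The ground states of the perturbed interactions are carried by the good configurations.** -/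
theorem gs_good (h0 : 0 < φ) (h1 : φ < 1) (hR : Adm φ R) {Ψ : Interaction} (hΨ : FinRange Ψ) :
    ∃ ε₀ : ℝ, 0 < ε₀ ∧ ∀ ε, 0 ≤ ε → ε < ε₀ → ∀ ν : Measure Conf, Inv ν →
      (∀ᵐ Y ∂ν, IsGSC (pert (Win φ R) Ψ ε) Y) → ∀ᵐ Y ∂ν, Y ∈ Good φ := by
  obtain ⟨n, hn1, hn⟩ := finRange_nat hΨ
  obtain ⟨b0, b, C, hC0, hb, hC⟩ := mean_le h0 h1 hR hn1 (Bf_loc Ψ n)
  refine ⟨1 / (2 * (C + 1)), by positivity, fun ε hε hε1 ν hν hgs => ?_⟩
  have := hν.1
  have hεC : ε * C ≤ 1 / 2 := by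
    have : ε * (C + 1) ≤ 1 / 2 := by
      calc ε * (C + 1) ≤ 1 / (2 * (C + 1)) * (C + 1) := by gcongr
        _ = 1 / 2 := by field_simp
    nlinarith
  have hmono : ∀ m m' : ℕ, m ≤ m' → ∀ X, en R (hgt φ X) m 0 ≤ en R (hgt φ X) m' 0 := by
    intro m m' hm X
    classical
    unfold en
    refine sum_le_sum_of_subset_of_nonneg (Icc_subset_Icc le_rfl hm) fun r _ _ => ?_
    split_ifs
    · exact le_rfl
    · exact cf_nonneg hR.toBd _
  have hei : ∀ m, Integrable (fun X : Conf => en R (hgt φ X) m 0) ν :=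
    fun m => int_loc _ (en_loc R m)
  have hrho : Tendsto (fun k : ℕ => rho R (k + 1)) atTop (nhds 0) :=
    (tendsto_add_atTop_iff_nat (f := fun m : ℕ => R m / (m : ℝ) ^ 2) 1).2
      hR.sm.tendsto_atTop_zero
  have hzero : ∀ m, ∫ X, en R (hgt φ X) m 0 ∂ν = 0 := by
    intro m
    refine le_antisymm ?_ (integral_nonneg fun X => en_nonneg hR.toBd _ _ _)
    refine ge_of_tendsto hrho (eventually_atTop.2 ⟨max n m, fun k hk => ?_⟩)
    have hk1 : n ≤ k := (le_max_left _ _).trans hk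
    have hk2 : m ≤ 2 * k := by have := (le_max_right n m).trans hk; omega
    have a1 := en_le hR (cod_good h0 h1 0) hΨ hn1 hn hb hε hν hgs (2 * k)
    have a2 := hC ν hν k hk1
    have a3 : ∫ X, en R (hgt φ X) m 0 ∂ν ≤ ∫ X, en R (hgt φ X) (2 * k) 0 ∂ν :=
      integral_mono (hei _) (hei _) (hmono _ _ hk2)
    have a4 : b0 - ∫ Y, Bf Ψ n Y ∂ν ≤
        C * (∫ X, en R (hgt φ X) (2 * k) 0 ∂ν + rho R (k + 1)) := by
      have := (abs_le.1 a2).1
      linarith
    have a5 := mul_le_mul_of_nonneg_left a4 hε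
    have he0 : 0 ≤ ∫ X, en R (hgt φ X) (2 * k) 0 ∂ν :=
      integral_nonneg fun X => en_nonneg hR.toBd _ _ _
    have hρ := rho_nonneg hR.toBd (k + 1)
    have a6 : ε * (C * (∫ X, en R (hgt φ X) (2 * k) 0 ∂ν + rho R (k + 1))) ≤
        1 / 2 * (∫ X, en R (hgt φ X) (2 * k) 0 ∂ν + rho R (k + 1)) := by
      rw [← mul_assoc]
      gcongr
    linarith
  have hae : ∀ m : ℕ, ∀ᵐ X ∂ν, en R (hgt φ X) m 0 = 0 := by
    intro m
    have := (integral_eq_zero_iff_of_nonneg (fun X => en_nonneg hR.toBd _ _ _) (hei m)).1 (hzero m)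
    exact this
  filter_upwards [ae_all_iff.2 hae] with X hX a b
  obtain ⟨m, hm1, hm⟩ : ∃ m : ℕ, 1 ≤ m ∧ -(m : ℤ) ≤ a ∧ b ≤ m :=
    ⟨a.natAbs + b.natAbs + 1, by omega, by omega, by omega⟩
  have h2 := hX m
  classical
  unfold en at h2
  rw [sum_eq_zero_iff_of_nonneg fun r _ => by
    split_ifs
    · exact le_rfl
    · exact cf_nonneg hR.toBd _] at h2
  have h3 := h2 m (mem_Icc.2 ⟨hm1, le_rfl⟩)
  by_cases hG : G (hgt φ X) (0 - m) (0 + m)
  · exact hG.mono (by omega) (by omega)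
  · rw [if_neg hG] at h3
    exact absurd h3 (cf_pos hR.toBd _).ne'

/-- the good configurations are ground-state configurations of the perturbed interactions -/
theorem good_gsc (h0 : 0 < φ) (h1 : φ < 1) (hR : Adm φ R) {Ψ : Interaction} (hΨ : FinRange Ψ) :
    ∃ ε₀ : ℝ, 0 < ε₀ ∧ ∀ ε, 0 ≤ ε → ε < ε₀ → ∀ X ∈ Good φ, IsGSC (pert (Win φ R) Ψ ε) X := by
  obtain ⟨C, hC0, hC⟩ := fin_le h0 h1 hR hΨ
  refine ⟨1 / (C + 1), by positivity, fun ε hε hε1 X hX Y hXY => ?_⟩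
  rw [rel_pert (win_summable hR) (finRange_summable hΨ) ε hXY]
  have hr : 0 ≤ rel (Win φ R) Y X := by simpa using win_rel hR hX hXY ∅
  have hεC : ε * C ≤ 1 := by
    have : ε * (C + 1) ≤ 1 := by
      calc ε * (C + 1) ≤ 1 / (C + 1) * (C + 1) := by gcongr
        _ = 1 := by field_simp
    nlinarith
  have h3 := (abs_le.1 (hC X hX Y hXY)).1
  have h4 : ε * (-(C * rel (Win φ R) Y X)) ≤ ε * rel Ψ Y X := by gcongr
  nlinarith

/-- the ground states of the perturbed interactions -/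
theorem gs_iff (h0 : 0 < φ) (h1 : φ < 1) (hR : Adm φ R) {Ψ : Interaction} (hΨ : FinRange Ψ) :
    ∃ ε₀ : ℝ, 0 < ε₀ ∧ ∀ ε, 0 ≤ ε → ε < ε₀ → ∀ μ : Measure Conf,
      IsGS (pert (Win φ R) Ψ ε) μ ↔ μ = sturm φ := by
  obtain ⟨ε₁, h3, h4⟩ := gs_good h0 h1 hR hΨ
  obtain ⟨ε₂, h5, h6⟩ := good_gsc h0 h1 hR hΨ
  refine ⟨min ε₁ ε₂, lt_min h3 h5, fun ε hε hlt μ => ⟨fun h => ?_, fun h => ?_⟩⟩
  · exact good_unique h.1 (sturm_inv φ)
      (h4 ε hε (hlt.trans_le (min_le_left _ _)) μ h.1 h.2) (sturm_good h0 h1)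
  · subst h
    refine ⟨sturm_inv φ, ?_⟩
    filter_upwards [sturm_good h0 h1] with X hX
    exact h6 ε hε (hlt.trans_le (min_le_right _ _)) X hX

/-- the zero interaction -/
def zeroI : Interaction := ⟨fun _ _ => 0, fun _ _ _ _ => rfl, fun _ _ _ => rfl⟩

lemma zero_fin : FinRange zeroI := ⟨0, fun _ _ _ => rfl⟩

lemma pert_zero (Φ : Interaction) : pert Φ zeroI 0 = Φ := by
  cases Φ
  simp [pert]

/-- **Stability of the Sturmian ground states.** -/
theorem main (h0 : 0 < φ) (h1 : φ < 1) (hφ : Irrational φ) (hR : Adm φ R) :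
    (∀ μ, IsSturm φ μ ↔ μ = sturm φ) ∧ IsSummable (Win φ R) ∧
    (∀ μ, IsGS (Win φ R) μ ↔ μ = sturm φ) ∧ ∀ Ψ, FinRange Ψ → ∃ ε₀ : ℝ, 0 < ε₀ ∧
      ∀ ε, 0 < ε → ε < ε₀ → ∀ μ, IsGS (pert (Win φ R) Ψ ε) μ ↔ μ = sturm φ := by
  refine ⟨fun μ => ?_, win_summable hR, fun μ => ?_, fun Ψ hΨ => ?_⟩
  · unfold IsSturm
    rw [GSt_eq h0 h1 hφ]
    constructor
    · rintro ⟨h2, h3⟩
      exact good_unique h2 (sturm_inv φ) h3 (sturm_good h0 h1)
    · rintro rfl
      exact ⟨sturm_inv φ, sturm_good h0 h1⟩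
  · obtain ⟨ε₀, h2, h3⟩ := gs_iff h0 h1 hR zero_fin
    have := h3 0 le_rfl h2 μ
    rwa [pert_zero] at this
  · obtain ⟨ε₀, h2, h3⟩ := gs_iff h0 h1 hR hΨ
    exact ⟨ε₀, h2, fun ε hε => h3 ε hε.le⟩

/-- Diophantine numbers admit a summable bound -/
lemma Dioph.adm {φ : ℝ} (h : Dioph φ) : ∃ R : ℕ → ℝ, Adm φ R := by
  obtain ⟨C, a, hC, ha0, ha1, hB⟩ := h.bd
  refine ⟨_, hB, ?_, ?_⟩
  · have h2 : Summable fun m : ℕ => C * (m : ℝ) ^ (a - 2) :=
      (Real.summable_nat_rpow.2 (by linarith)).mul_left C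
    refine h2.congr fun m => ?_
    rcases Nat.eq_zero_or_pos m with rfl | hm
    · simp
      have : a - 2 ≠ 0 := by linarith
      right
      exact Real.zero_rpow this
    · have hm' : (0 : ℝ) < m := by exact_mod_cast hm
      rw [Real.rpow_sub hm', mul_div_assoc]
      norm_num
  · have h2 : Tendsto (fun m : ℕ => C * (m : ℝ) ^ (-(1 - a))) atTop (nhds (C * 0)) :=
      ((tendsto_rpow_neg_atTop (by linarith : 0 < 1 - a)).comp
        tendsto_natCast_atTop_atTop).const_mul C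
    rw [mul_zero] at h2
    refine h2.congr' (eventually_atTop.2 ⟨1, fun m hm => ?_⟩)
    have hm' : (0 : ℝ) < m := by exact_mod_cast hm
    show C * (m : ℝ) ^ (-(1 - a)) = C * (m : ℝ) ^ a / m
    have : -(1 - a) = a - 1 := by ring
    rw [this, Real.rpow_sub hm', Real.rpow_one, mul_div_assoc]

end Pool.Agent.Y660.ST
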