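import Mathlib

/-!
# Height functions of configurations: local goodness and Fejér averages

MP_084e97_mp (helper660). `s : ℤ → ℝ` with steps `1 - φ` and `-φ`.
-/

set_option autoImplicit false

namespace Pool.Agent.Y660.ST

open Finset

/-- the oscillation of `s` on `[a, b]` is less than `1` -/
def G (s : ℤ → ℝ) (a b : ℤ) : Prop := ∀ i ∈ Set.Icc a b, ∀ j ∈ Set.Icc a b, s i - s j < 1

lemma G.mono {s : ℤ → ℝ} {a b a' b' : ℤ} (h : G s a b) (ha : a ≤ a') (hb : b' ≤ b) :
    G s a' b' := fun i hi j hj =>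
  h i ⟨ha.trans hi.1, hi.2.trans hb⟩ j ⟨ha.trans hj.1, hj.2.trans hb⟩

/-- the steps of `s` -/
def Stp (φ : ℝ) (s : ℤ → ℝ) : Prop := ∀ i, s (i + 1) = s i + 1 - φ ∨ s (i + 1) = s i - φ

/-- bounds for the sums of the sawtooth function along the rotation by `φ` -/
structure Bd (φ : ℝ) (R : ℕ → ℝ) : Prop where
  mono : Monotone R
  bd : ∀ m : ℕ, ∀ y : ℝ, |∑ j ∈ range m, (Int.fract (y + j * φ) - 1 / 2)| ≤ R m

lemma Bd.half {φ : ℝ} {R : ℕ → ℝ} (h : Bd φ R) {m : ℕ} (hm : 1 ≤ m) : 1 / 2 ≤ R m := by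
  have h1 := h.bd 1 0
  simp at h1
  have h2 := h.mono hm
  have : (2 : ℝ)⁻¹ = 1 / 2 := by norm_num
  linarith

lemma Bd.nonneg {φ : ℝ} {R : ℕ → ℝ} (h : Bd φ R) (m : ℕ) : 0 ≤ R m :=
  (abs_nonneg _).trans (h.bd m 0)

lemma stp_int {φ : ℝ} {s : ℤ → ℝ} (hs : Stp φ s) (a : ℤ) (l : ℕ) :
    ∃ z : ℤ, s (a + l) = s a - l * φ + z := by
  induction l with
  | zero => exact ⟨0, by simp⟩
  | succ l ih =>
    obtain ⟨z, hz⟩ := ih
    rcases hs (a + l) with h | h
    · refine ⟨z + 1, ?_⟩
      have : a + ((l + 1 : ℕ) : ℤ) = a + l + 1 := by push_cast; ring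
      rw [this, h, hz]; push_cast; ring
    · refine ⟨z, ?_⟩
      have : a + ((l + 1 : ℕ) : ℤ) = a + l + 1 := by push_cast; ring
      rw [this, h, hz]; push_cast; ring

/-- in a good window the sums of `s` are close to multiples of a constant -/
lemma window {φ : ℝ} {R : ℕ → ℝ} (hR : Bd φ R) {s : ℤ → ℝ} (hs : Stp φ s) {a b : ℤ} (hab : a ≤ b)
    (hG : G s a b) : ∃ κ : ℝ, ∀ (a' : ℤ) (m : ℕ), a ≤ a' → a' + m ≤ b + 1 →
      |∑ l ∈ range m, s (a' + l) - m * κ| ≤ R m := by
  obtain ⟨i₀, hi₀, hmax⟩ := (Icc a b).exists_max_image s ⟨a, by simp [hab]⟩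
  refine ⟨s i₀ - 1 / 2, fun a' m ha' hm => ?_⟩
  have key : ∀ l ∈ range m, s (a' + l) - (s i₀ - 1 / 2) =
      -(Int.fract ((s i₀ - s a') + l * φ) - 1 / 2) := by
    intro l hl
    rw [mem_range] at hl
    have hmem : a' + (l : ℤ) ∈ Icc a b := by
      rw [mem_Icc]; constructor <;> omega
    obtain ⟨z, hz⟩ := stp_int hs a' l
    have h1 : Int.fract ((s i₀ - s a') + l * φ) = s i₀ - s (a' + l) := by
      rw [Int.fract_eq_iff]
      refine ⟨sub_nonneg.2 (hmax _ hmem), ?_, ⟨z, ?_⟩⟩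
      · exact hG i₀ (by simpa using hi₀) _ (by simpa using hmem)
      · rw [hz]; ring
    rw [h1]; ring
  have h2 : ∑ l ∈ range m, s (a' + l) - m * (s i₀ - 1 / 2) =
      -∑ l ∈ range m, (Int.fract ((s i₀ - s a') + l * φ) - 1 / 2) := by
    rw [← sum_neg_distrib, ← sum_congr rfl key, sum_sub_distrib]
    simp
    ring
  rw [h2, abs_neg]
  exact hR.bd m _

/-- the unnormalised Fejér average -/
noncomputable def P (s : ℤ → ℝ) (M : ℕ) (i : ℤ) : ℝ :=
  ∑ b ∈ range M, ∑ a ∈ range M, s (i + a - b)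

/-- the Fejér average -/
noncomputable def Gam (s : ℤ → ℝ) (M : ℕ) (i : ℤ) : ℝ := P s M i / (M : ℝ) ^ 2

lemma P_step (s : ℤ → ℝ) (M : ℕ) (i : ℤ) :
    P s M (i + 1) - P s M i = ∑ l ∈ range M, s (i + 1 + l) - ∑ l ∈ range M, s (i - M + 1 + l) := by
  have h1 : ∀ b ∈ range M, ∑ a ∈ range M, s (i + 1 + a - b) - ∑ a ∈ range M, s (i + a - b) =
      s (i + M - b) - s (i - b) := by
    intro b _
    rw [← sum_sub_distrib]
    have := Finset.sum_range_sub (fun a : ℕ => s (i + a - b)) M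
    have e : ∀ a : ℕ, s (i + 1 + a - b) = s (i + ((a + 1 : ℕ) : ℤ) - b) := fun a => by
      congr 1; push_cast; ring
    simp only [e]
    rw [this]
    simp
  unfold P
  rw [← sum_sub_distrib, sum_congr rfl h1, sum_sub_distrib, ← sum_range_reflect,
    ← sum_range_reflect (fun b : ℕ => s (i - b))]
  congr 1
  · refine sum_congr rfl fun l hl => ?_
    rw [mem_range] at hl
    congr 1
    have : ((M - 1 - l : ℕ) : ℤ) = M - 1 - l := by omega
    rw [this]; ring
  · refine sum_congr rfl fun l hl => ?_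
    rw [mem_range] at hl
    congr 1
    have : ((M - 1 - l : ℕ) : ℤ) = M - 1 - l := by omega
    rw [this]; ring

lemma P_succ (s : ℤ → ℝ) (M : ℕ) (i : ℤ) :
    P s (M + 1) i - P s M i =
      ∑ l ∈ range (M + 1), s (i - M + l) + ∑ l ∈ range M, s (i + 1 + l) := by
  unfold P
  rw [sum_range_succ]
  have h1 : ∑ b ∈ range M, ∑ a ∈ range (M + 1), s (i + a - b) =
      ∑ b ∈ range M, ∑ a ∈ range M, s (i + a - b) + ∑ b ∈ range M, s (i + M - b) := by
    rw [← sum_add_distrib]
    exact sum_congr rfl fun b _ => sum_range_succ _ _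
  have h2 : ∑ b ∈ range M, s (i + M - b) = ∑ l ∈ range M, s (i + 1 + l) := by
    rw [← sum_range_reflect]
    refine sum_congr rfl fun l hl => ?_
    rw [mem_range] at hl
    congr 1
    have : ((M - 1 - l : ℕ) : ℤ) = M - 1 - l := by omega
    rw [this]; ring
  have h3 : ∑ a ∈ range (M + 1), s (i + a - M) = ∑ l ∈ range (M + 1), s (i - M + l) :=
    sum_congr rfl fun l _ => by congr 1; ring
  rw [h1, h2, h3]
  ring

lemma step2 {φ : ℝ} {R : ℕ → ℝ} (hR : Bd φ R) {s : ℤ → ℝ} (hs : Stp φ s) {M : ℕ} (hM : 1 ≤ M)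
    {i : ℤ} (hG : G s (i - M + 1) (i + M)) : |Gam s M (i + 1) - Gam s M i| ≤
      2 * R M / (M : ℝ) ^ 2 := by
  obtain ⟨κ, hκ⟩ := window hR hs (by omega) hG
  have h1 := hκ (i + 1) M (by omega) (by omega)
  have h2 := hκ (i - M + 1) M (by omega) (by omega)
  have hM0 : (0 : ℝ) < (M : ℝ) ^ 2 := by positivity
  unfold Gam
  rw [← sub_div, abs_div, abs_of_pos hM0, P_step]
  gcongr
  rw [abs_le] at *
  constructor <;> linarith [h1.1, h1.2, h2.1, h2.2]

lemma step1 {φ : ℝ} {R : ℕ → ℝ} (hR : Bd φ R) {s : ℤ → ℝ} (hs : Stp φ s) {M : ℕ} (hM : 1 ≤ M)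
    {i : ℤ} (hG : G s (i - M) (i + M)) : |Gam s (M + 1) i - Gam s M i| ≤
      5 * R (M + 1) / ((M : ℝ) + 1) ^ 2 := by
  obtain ⟨κ, hκ⟩ := window hR hs (by omega) hG
  have h1 := hκ (i - M) (M + 1) (by omega) (by push_cast; omega)
  have h2 := hκ (i + 1) M (by omega) (by omega)
  have h3 : |P s M i - (M : ℝ) ^ 2 * κ| ≤ M * R M := by
    have e : P s M i - (M : ℝ) ^ 2 * κ =
        ∑ b ∈ range M, (∑ a ∈ range M, s (i - b + a) - M * κ) := by
      rw [sum_sub_distrib]
      simp only [sum_const, card_range, nsmul_eq_mul]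
      unfold P
      have : ∑ b ∈ range M, ∑ a ∈ range M, s (i + a - b) =
          ∑ b ∈ range M, ∑ a ∈ range M, s (i - b + a) :=
        sum_congr rfl fun b _ => sum_congr rfl fun a _ => by congr 1; ring
      rw [this]; ring
    rw [e]
    refine (abs_sum_le_sum_abs _ _).trans ?_
    have : ∀ b ∈ range M, |∑ a ∈ range M, s (i - b + a) - M * κ| ≤ R M := by
      intro b hb
      rw [mem_range] at hb
      exact hκ (i - b) M (by omega) (by omega)
    refine (sum_le_sum this).trans ?_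
    simp
  have hm := hR.mono (Nat.le_succ M)
  have hM1 : (1 : ℝ) ≤ M := by exact_mod_cast hM
  have hsum := P_succ s M i
  have hR0 := hR.nonneg M
  have e : Gam s (M + 1) i - Gam s M i =
      ((P s (M + 1) i - P s M i - (2 * M + 1) * κ) * (M : ℝ) ^ 2 -
        (P s M i - (M : ℝ) ^ 2 * κ) * (2 * M + 1)) / ((M : ℝ) ^ 2 * ((M : ℝ) + 1) ^ 2) := by
    unfold Gam
    push_cast
    field_simp
    ring
  rw [e, abs_div, abs_of_pos (show (0 : ℝ) < (M : ℝ) ^ 2 * ((M : ℝ) + 1) ^ 2 by positivity),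
    div_le_div_iff₀ (by positivity) (by positivity)]
  have h4 : |P s (M + 1) i - P s M i - (2 * M + 1) * κ| ≤ 2 * R (M + 1) := by
    rw [hsum]
    push_cast at h1
    rw [abs_le] at *
    constructor <;> linarith [h1.1, h1.2, h2.1, h2.2]
  have h5 : |(P s (M + 1) i - P s M i - (2 * M + 1) * κ) * (M : ℝ) ^ 2 -
        (P s M i - (M : ℝ) ^ 2 * κ) * (2 * M + 1)| ≤
      2 * R (M + 1) * (M : ℝ) ^ 2 + M * R M * (2 * M + 1) := by
    refine (abs_sub _ _).trans ?_
    rw [abs_mul, abs_mul, abs_of_nonneg (show (0 : ℝ) ≤ (M : ℝ) ^ 2 by positivity),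
      abs_of_nonneg (show (0 : ℝ) ≤ 2 * (M : ℝ) + 1 by positivity)]
    gcongr
  have h6 : 2 * R (M + 1) * (M : ℝ) ^ 2 + M * R M * (2 * M + 1) ≤ 5 * R (M + 1) * (M : ℝ) ^ 2 := by
    have h7 : (M : ℝ) * R M * (2 * M + 1) ≤ M * R (M + 1) * (2 * M + 1) := by gcongr
    have hR1 := hR.nonneg (M + 1)
    nlinarith [mul_nonneg hR1 (mul_nonneg (by linarith : (0 : ℝ) ≤ M)
      (by linarith : (0 : ℝ) ≤ (M : ℝ) - 1))]
  calc _ ≤ (2 * R (M + 1) * (M : ℝ) ^ 2 + M * R M * (2 * M + 1)) * ((M : ℝ) + 1) ^ 2 := by gcongr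
    _ ≤ 5 * R (M + 1) * (M : ℝ) ^ 2 * ((M : ℝ) + 1) ^ 2 := by gcongr
    _ = _ := by ring

/-! ## The scale of goodness -/

open Classical in
/-- the largest `M ≤ k` such that the window of radius `M - 1` at `i` is good -/
noncomputable def K (s : ℤ → ℝ) (k : ℕ) (i : ℤ) : ℕ :=
  Nat.findGreatest (fun M => G s (i - M + 1) (i + M - 1)) k

/-- the local average at the scale of goodness -/
noncomputable def f (s : ℤ → ℝ) (k : ℕ) (i : ℤ) : ℝ := Gam s (K s k i) i

lemma G_one (s : ℤ → ℝ) (i : ℤ) : G s (i - (1 : ℕ) + 1) (i + (1 : ℕ) - 1) := by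
  intro a ha b hb
  have h1 : a = i := le_antisymm (by have := ha.2; push_cast at this; omega)
    (by have := ha.1; push_cast at this; omega)
  have h2 : b = i := le_antisymm (by have := hb.2; push_cast at this; omega)
    (by have := hb.1; push_cast at this; omega)
  rw [h1, h2]; simp

section

variable {s : ℤ → ℝ} {k : ℕ} {i : ℤ}

lemma one_le_K (hk : 1 ≤ k) : 1 ≤ K s k i := by
  classical
  unfold K
  exact Nat.le_findGreatest hk (G_one s i)

lemma K_le : K s k i ≤ k := by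
  classical
  unfold K
  exact Nat.findGreatest_le k

lemma G_K (hk : 1 ≤ k) : G s (i - K s k i + 1) (i + K s k i - 1) := by
  classical
  unfold K
  exact Nat.findGreatest_spec (P := fun M : ℕ => G s (i - M + 1) (i + M - 1)) hk (G_one s i)

lemma not_G {M : ℕ} (h1 : K s k i < M) (h2 : M ≤ k) : ¬ G s (i - M + 1) (i + M - 1) := by
  classical
  unfold K at h1
  exact Nat.findGreatest_is_greatest h1 h2

lemma le_K {M : ℕ} (h1 : M ≤ k) (h2 : G s (i - M + 1) (i + M - 1)) : M ≤ K s k i := by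
  classical
  unfold K
  exact Nat.le_findGreatest h1 h2

lemma K_lip1 (hk : 1 ≤ k) : K s k i ≤ K s k (i + 1) + 1 := by
  rcases Nat.lt_or_ge (K s k i) 2 with h | h
  · have := one_le_K (s := s) (i := i + 1) hk
    omega
  · have h1 : K s k i - 1 ≤ K s k (i + 1) := by
      refine le_K ((Nat.sub_le _ _).trans K_le) ((G_K (s := s) (i := i) hk).mono ?_ ?_)
      · have : ((K s k i - 1 : ℕ) : ℤ) = K s k i - 1 := by omega
        rw [this]; omega
      · have : ((K s k i - 1 : ℕ) : ℤ) = K s k i - 1 := by omega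
        rw [this]; omega
    omega

lemma K_lip2 (hk : 1 ≤ k) : K s k (i + 1) ≤ K s k i + 1 := by
  rcases Nat.lt_or_ge (K s k (i + 1)) 2 with h | h
  · have := one_le_K (s := s) (i := i) hk
    omega
  · have h1 : K s k (i + 1) - 1 ≤ K s k i := by
      refine le_K ((Nat.sub_le _ _).trans K_le) ((G_K (s := s) (i := i + 1) hk).mono ?_ ?_)
      · have : ((K s k (i + 1) - 1 : ℕ) : ℤ) = K s k (i + 1) - 1 := by omega
        rw [this]; omega
      · have : ((K s k (i + 1) - 1 : ℕ) : ℤ) = K s k (i + 1) - 1 := by omega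
        rw [this]; omega
    omega

end

/-- the error at scale `m` -/
noncomputable def rho (R : ℕ → ℝ) (m : ℕ) : ℝ := R m / (m : ℝ) ^ 2

lemma rho_nonneg {φ : ℝ} {R : ℕ → ℝ} (hR : Bd φ R) (m : ℕ) : 0 ≤ rho R m :=
  div_nonneg (hR.nonneg m) (by positivity)

/-- the variation of `f` is controlled by the scale of goodness -/
lemma f_step {φ : ℝ} (hφ0 : 0 < φ) (hφ1 : φ < 1) {R : ℕ → ℝ} (hR : Bd φ R) {s : ℤ → ℝ}
    (hs : Stp φ s) {k : ℕ} (hk : 1 ≤ k) (i : ℤ) :
    |f s k (i + 1) - f s k i| ≤ 42 * rho R (K s k i + 1) := by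
  have a1 := K_lip1 (s := s) (i := i) hk
  have a2 := K_lip2 (s := s) (i := i) hk
  have g1 := G_K (s := s) (i := i) hk
  have g2 := G_K (s := s) (i := i + 1) hk
  have o1 := one_le_K (s := s) (i := i) hk
  have o2 := one_le_K (s := s) (i := i + 1) hk
  have e1 : f s k i = Gam s (K s k i) i := rfl
  have e2 : f s k (i + 1) = Gam s (K s k (i + 1)) (i + 1) := rfl
  rw [e1, e2]
  generalize K s k i = A at *
  generalize K s k (i + 1) = B at *
  clear e1 e2
  -- the two elementary bounds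
  have b1 : ∀ (j : ℤ) (M : ℕ), 1 ≤ M → M ≤ A → A ≤ M + 1 → G s (j - M) (j + M) →
      |Gam s (M + 1) j - Gam s M j| ≤ 12 * rho R (A + 1) := by
    intro j M hM h1 h2 h3
    refine (step1 hR hs hM h3).trans ?_
    unfold rho
    have hm : R (M + 1) ≤ R (A + 1) := hR.mono (by omega)
    have hA : (A : ℝ) + 1 ≤ M + 2 := by exact_mod_cast (by omega : A + 1 ≤ M + 2)
    have hM1 : (1 : ℝ) ≤ M := by exact_mod_cast hM
    have hA0 : (0 : ℝ) ≤ A := by positivity
    rw [← mul_div_assoc, div_le_div_iff₀ (by positivity) (by positivity)]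
    push_cast
    have h4 : 5 * ((A : ℝ) + 1) ^ 2 ≤ 12 * ((M : ℝ) + 1) ^ 2 := by
      have : ((A : ℝ) + 1) ^ 2 ≤ (M + 2) ^ 2 := by gcongr
      nlinarith
    have h5 := hR.nonneg (M + 1)
    calc 5 * R (M + 1) * ((A : ℝ) + 1) ^ 2 = R (M + 1) * (5 * ((A : ℝ) + 1) ^ 2) := by ring
      _ ≤ R (A + 1) * (12 * ((M : ℝ) + 1) ^ 2) := by gcongr; exact hR.nonneg _
      _ = _ := by ring
  have b2 : ∀ (M : ℕ), 1 ≤ M → M ≤ A → A ≤ M + 1 → G s (i - M + 1) (i + M) →
      |Gam s M (i + 1) - Gam s M i| ≤ 18 * rho R (A + 1) := by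
    intro M hM h1 h2 h3
    refine (step2 hR hs hM h3).trans ?_
    unfold rho
    have hm : R M ≤ R (A + 1) := hR.mono (by omega)
    have hA : (A : ℝ) + 1 ≤ M + 2 := by exact_mod_cast (by omega : A + 1 ≤ M + 2)
    have hM1 : (1 : ℝ) ≤ M := by exact_mod_cast hM
    have hA0 : (0 : ℝ) ≤ A := by positivity
    rw [← mul_div_assoc, div_le_div_iff₀ (by positivity) (by positivity)]
    push_cast
    have h4 : 2 * ((A : ℝ) + 1) ^ 2 ≤ 18 * (M : ℝ) ^ 2 := by
      have : ((A : ℝ) + 1) ^ 2 ≤ (M + 2) ^ 2 := by gcongr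
      nlinarith
    have h5 := hR.nonneg M
    calc 2 * R M * ((A : ℝ) + 1) ^ 2 = R M * (2 * ((A : ℝ) + 1) ^ 2) := by ring
      _ ≤ R (A + 1) * (18 * (M : ℝ) ^ 2) := by gcongr; exact hR.nonneg _
      _ = _ := by ring
  have hρ := rho_nonneg hR (A + 1)
  rcases (by omega : B = A + 1 ∨ B = A ∨ A = B + 1) with h | h | h
  · subst h
    have c1 := b1 (i + 1) A o1 le_rfl (by omega) (g2.mono (by push_cast; omega) (by push_cast; omega))
    have c2 := b2 A o1 le_rfl (by omega) (g2.mono (by push_cast; omega) (by push_cast; omega))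
    rw [abs_le] at *
    constructor <;> linarith [c1.1, c1.2, c2.1, c2.2]
  · subst h
    rcases Nat.lt_or_ge B 2 with h2 | h2
    · have hB : B = 1 := by omega
      subst hB
      have h3 : |Gam s 1 (i + 1) - Gam s 1 i| ≤ 1 := by
        unfold Gam P
        simp only [range_one, sum_singleton]
        push_cast
        rw [abs_le]
        rcases hs i with h4 | h4
        · have e : i + 1 + 0 - 0 = i + 1 := by ring
          have e' : i + 0 - 0 = i := by ring
          rw [e, e', h4]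
          constructor <;> norm_num <;> linarith
        · have e : i + 1 + 0 - 0 = i + 1 := by ring
          have e' : i + 0 - 0 = i := by ring
          rw [e, e', h4]
          constructor <;> norm_num <;> linarith
      refine h3.trans ?_
      have := hR.half (m := 1 + 1) (by norm_num)
      unfold rho
      push_cast
      rw [← mul_div_assoc, le_div_iff₀ (by norm_num)]
      linarith
    · obtain ⟨M, rfl⟩ : ∃ M, B = M + 1 := ⟨B - 1, by omega⟩
      have c1 := b1 i M (by omega) (by omega) le_rfl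
        (g1.mono (by push_cast; omega) (by push_cast; omega))
      have c2 := b1 (i + 1) M (by omega) (by omega) le_rfl
        (g2.mono (by push_cast; omega) (by push_cast; omega))
      have c3 := b2 M (by omega) (by omega) le_rfl
        (g1.mono (by push_cast; omega) (by push_cast; omega))
      rw [abs_le] at *
      constructor <;> linarith [c1.1, c1.2, c2.1, c2.2, c3.1, c3.2]
  · subst h
    have c1 := b1 i B o2 (by omega) le_rfl (g1.mono (by push_cast; omega) (by push_cast; omega))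
    have c2 := b2 B o2 (by omega) le_rfl (g1.mono (by push_cast; omega) (by push_cast; omega))
    rw [abs_le] at *
    constructor <;> linarith [c1.1, c1.2, c2.1, c2.2]

/-! ## The energy of the bad windows -/

/-- the coefficient of the windows with `n` letters -/
noncomputable def cf (R : ℕ → ℝ) (n : ℕ) : ℝ := R (n + 1) / ((n : ℝ) + 1) ^ 3

lemma cf_nonneg {φ : ℝ} {R : ℕ → ℝ} (hR : Bd φ R) (n : ℕ) : 0 ≤ cf R n :=
  div_nonneg (hR.nonneg _) (by positivity)

lemma cf_pos {φ : ℝ} {R : ℕ → ℝ} (hR : Bd φ R) (n : ℕ) : 0 < cf R n :=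
  div_pos (lt_of_lt_of_le (by norm_num) (hR.half (by omega))) (by positivity)

open Classical in
/-- the energy of the bad windows centred at `i` with at most `2 m` letters -/
noncomputable def en (R : ℕ → ℝ) (s : ℤ → ℝ) (m : ℕ) (i : ℤ) : ℝ :=
  ∑ r ∈ Icc 1 m, if G s (i - r) (i + r) then 0 else cf R (2 * r)

lemma en_nonneg {φ : ℝ} {R : ℕ → ℝ} (hR : Bd φ R) (s : ℤ → ℝ) (m : ℕ) (i : ℤ) :
    0 ≤ en R s m i := by
  classical
  unfold en
  refine sum_nonneg fun r _ => ?_
  split_ifs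
  · exact le_rfl
  · exact cf_nonneg hR _

lemma rho_le_en {φ : ℝ} {R : ℕ → ℝ} (hR : Bd φ R) {s : ℤ → ℝ} {k : ℕ} (hk : 1 ≤ k) (i : ℤ)
    (h : K s k i < k) : rho R (K s k i + 1) ≤ 64 * en R s (2 * k) i := by
  classical
  have o1 := one_le_K (s := s) (i := i) hk
  have ng := not_G (s := s) (i := i) (Nat.lt_succ_self _) (by omega : K s k i + 1 ≤ k)
  generalize K s k i = A at *
  have h1 : ∀ r ∈ Icc A (2 * A), R (A + 1) / (64 * ((A : ℝ) + 1) ^ 3) ≤
      (if G s (i - r) (i + r) then 0 else cf R (2 * r)) := by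
    intro r hr
    rw [mem_Icc] at hr
    have h2 : ¬ G s (i - r) (i + r) := fun hG => ng (hG.mono (by push_cast; omega)
      (by push_cast; omega))
    rw [if_neg h2]
    unfold cf
    have hm : R (A + 1) ≤ R (2 * r + 1) := hR.mono (by omega)
    have h3 : (2 * (r : ℝ) + 1) ≤ 4 * (A + 1) := by
      have : (r : ℝ) ≤ 2 * A := by exact_mod_cast hr.2
      linarith
    have h0 := hR.nonneg (A + 1)
    push_cast
    rw [div_le_div_iff₀ (by positivity) (by positivity)]
    calc R (A + 1) * (2 * (r : ℝ) + 1) ^ 3 ≤ R (2 * r + 1) * (4 * (A + 1)) ^ 3 := by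
          gcongr
          exact hR.nonneg _
      _ = _ := by ring
  have h2 : ∑ r ∈ Icc A (2 * A), R (A + 1) / (64 * ((A : ℝ) + 1) ^ 3) ≤ en R s (2 * k) i := by
    refine (sum_le_sum h1).trans ?_
    unfold en
    refine sum_le_sum_of_subset_of_nonneg ?_ fun r _ _ => ?_
    · intro r hr
      rw [mem_Icc] at *
      omega
    · split_ifs
      · exact le_rfl
      · exact cf_nonneg hR _
  rw [sum_const, Nat.card_Icc, nsmul_eq_mul] at h2
  have h3 : ((2 * A + 1 - A : ℕ) : ℝ) = A + 1 := by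
    have : 2 * A + 1 - A = A + 1 := by omega
    rw [this]; push_cast; ring
  rw [h3] at h2
  unfold rho
  push_cast
  have h4 : R (A + 1) / ((A : ℝ) + 1) ^ 2 =
      64 * (((A : ℝ) + 1) * (R (A + 1) / (64 * ((A : ℝ) + 1) ^ 3))) := by
    field_simp
  rw [h4]
  linarith

/-- **Key estimate.** -/
lemma f_step' {φ : ℝ} (hφ0 : 0 < φ) (hφ1 : φ < 1) {R : ℕ → ℝ} (hR : Bd φ R) {s : ℤ → ℝ}
    (hs : Stp φ s) {k : ℕ} (hk : 1 ≤ k) (i : ℤ) :
    |f s k (i + 1) - f s k i| ≤ 2688 * en R s (2 * k) i + 42 * rho R (k + 1) := by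
  refine (f_step hφ0 hφ1 hR hs hk i).trans ?_
  have h0 := rho_nonneg hR (k + 1)
  have h1 := en_nonneg hR s (2 * k) i
  rcases (K_le (s := s) (k := k) (i := i)).lt_or_eq with h | h
  · have := rho_le_en hR hk i h
    linarith
  · rw [h]; linarith

/-- `f` is determined by the window -/
lemma f_cov {s s' : ℤ → ℝ} {k : ℕ} {i i' : ℤ} {c : ℝ} (hk : 1 ≤ k)
    (h : ∀ l : ℤ, |l| ≤ k → s' (i' + l) = s (i + l) + c) : f s' k i' = f s k i + c := by
  classical
  have hG : ∀ M : ℕ, M ≤ k → (G s' (i' - M + 1) (i' + M - 1) ↔ G s (i - M + 1) (i + M - 1)) := by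
    intro M hM
    constructor
    · intro hh a ha b hb
      have h1 := hh (i' + (a - i)) ⟨by linarith [ha.1], by linarith [ha.2]⟩ (i' + (b - i))
        ⟨by linarith [hb.1], by linarith [hb.2]⟩
      rw [h _ (abs_le.2 ⟨by have := ha.1; omega, by have := ha.2; omega⟩),
        h _ (abs_le.2 ⟨by have := hb.1; omega, by have := hb.2; omega⟩)] at h1
      have e1 : i + (a - i) = a := by ring
      have e2 : i + (b - i) = b := by ring
      rw [e1, e2] at h1
      linarith
    · intro hh a ha b hb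
      have h1 := hh (i + (a - i')) ⟨by linarith [ha.1], by linarith [ha.2]⟩ (i + (b - i'))
        ⟨by linarith [hb.1], by linarith [hb.2]⟩
      have h2 := h (a - i') (abs_le.2 ⟨by have := ha.1; omega, by have := ha.2; omega⟩)
      have h3 := h (b - i') (abs_le.2 ⟨by have := hb.1; omega, by have := hb.2; omega⟩)
      have e1 : i' + (a - i') = a := by ring
      have e2 : i' + (b - i') = b := by ring
      rw [e1] at h2
      rw [e2] at h3
      rw [h2, h3]
      linarith
  have hK : K s' k i' = K s k i := by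
    apply le_antisymm
    · exact le_K K_le ((hG _ K_le).1 (G_K hk))
    · exact le_K K_le ((hG _ K_le).2 (G_K hk))
  unfold f
  rw [hK]
  have h1 := one_le_K (s := s) (i := i) hk
  have h2 := K_le (s := s) (k := k) (i := i)
  generalize K s k i = A at *
  unfold Gam P
  have e : ∑ b ∈ range A, ∑ a ∈ range A, s' (i' + a - b) =
      ∑ b ∈ range A, ∑ a ∈ range A, s (i + a - b) + (A : ℝ) ^ 2 * c := by
    have : ∀ b ∈ range A, ∑ a ∈ range A, s' (i' + a - b) = ∑ a ∈ range A, s (i + a - b) + A * c := by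
      intro b hb
      rw [mem_range] at hb
      have : ∀ a ∈ range A, s' (i' + a - b) = s (i + a - b) + c := by
        intro a ha
        rw [mem_range] at ha
        have h3 := h ((a : ℤ) - b) (abs_le.2 ⟨by omega, by omega⟩)
        have e1 : i' + ((a : ℤ) - b) = i' + a - b := by ring
        have e2 : i + ((a : ℤ) - b) = i + a - b := by ring
        rw [e1, e2] at h3
        exact h3
      rw [sum_congr rfl this, sum_add_distrib]
      simp
    rw [sum_congr rfl this, sum_add_distrib]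
    simp
    ring
  rw [e]
  have hA : (A : ℝ) ≠ 0 := by positivity
  field_simp

/-- the local average is close to the value -/
lemma f_near {s : ℤ → ℝ} {k : ℕ} (hk : 1 ≤ k) (i : ℤ) : |f s k i - s i| ≤ 1 := by
  have g := G_K (s := s) (i := i) hk
  have h1 := one_le_K (s := s) (i := i) hk
  unfold f
  generalize K s k i = A at *
  have hA : (0 : ℝ) < A := by positivity
  have e : Gam s A i - s i = (∑ b ∈ range A, ∑ a ∈ range A, (s (i + a - b) - s i)) / (A : ℝ) ^ 2 := by
    unfold Gam P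
    simp only [sum_sub_distrib, sum_const, card_range, nsmul_eq_mul]
    field_simp
  rw [e, abs_div, abs_of_pos (show (0 : ℝ) < (A : ℝ) ^ 2 by positivity),
    div_le_one (by positivity)]
  refine (abs_sum_le_sum_abs _ _).trans ?_
  have : ∀ b ∈ range A, |∑ a ∈ range A, (s (i + a - b) - s i)| ≤ A := by
    intro b hb
    refine (abs_sum_le_sum_abs _ _).trans ?_
    have : ∀ a ∈ range A, |s (i + a - b) - s i| ≤ 1 := by
      intro a ha
      rw [mem_range] at ha hb
      have m1 : i + (a : ℤ) - b ∈ Set.Icc (i - A + 1) (i + A - 1) := ⟨by omega, by omega⟩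
      have m2 : i ∈ Set.Icc (i - (A : ℤ) + 1) (i + A - 1) := ⟨by omega, by omega⟩
      rw [abs_le]
      constructor
      · linarith [g _ m2 _ m1]
      · linarith [g _ m1 _ m2]
    refine (sum_le_sum this).trans ?_
    simp
  refine (sum_le_sum this).trans ?_
  simp [sq]

end Pool.Agent.Y660.ST
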