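import Pool.Agent.Y660.ST.Defs
import Pool.Agent.Y660.ST.Seq

/-!
# The height function of a configuration, and the Sturmian system
-/

set_option autoImplicit false

namespace Pool.Agent.Y660.ST

open Finset

/-- the indicator of the letter `0` -/
noncomputable def zz (X : Conf) (i : ℤ) : ℝ := if X i = 0 then 1 else 0

lemma zz_cases (X : Conf) (i : ℤ) : (X i = 0 ∧ zz X i = 1) ∨ (X i ≠ 0 ∧ zz X i = 0) := by
  unfold zz
  by_cases h : X i = 0
  · left; simp [h]
  · right; simp [h]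

lemma zz_congr {X Y : Conf} {i j : ℤ} (h : X i = Y j) : zz X i = zz Y j := by
  unfold zz; rw [h]

/-- the height function -/
noncomputable def hgt (φ : ℝ) (X : Conf) (i : ℤ) : ℝ :=
  ∑ j ∈ Ico 0 i, (zz X j - φ) - ∑ j ∈ Ico i 0, (zz X j - φ)

lemma hgt_succ (φ : ℝ) (X : Conf) (i : ℤ) : hgt φ X (i + 1) = hgt φ X i + (zz X i - φ) := by
  unfold hgt
  rcases le_or_gt 0 i with h | h
  · have h1 : Ico (0 : ℤ) (i + 1) = insert i (Ico 0 i) := by
      ext j; simp only [mem_Ico, mem_insert]; omega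
    have h2 : Ico (i + 1) (0 : ℤ) = ∅ := by ext j; simp; omega
    have h3 : Ico i (0 : ℤ) = ∅ := by ext j; simp; omega
    rw [h1, h2, h3, sum_insert (by simp)]
    ring
  · have h1 : Ico i (0 : ℤ) = insert i (Ico (i + 1) 0) := by
      ext j; simp only [mem_Ico, mem_insert]; omega
    have h2 : Ico (0 : ℤ) (i + 1) = ∅ := by ext j; simp; omega
    have h3 : Ico (0 : ℤ) i = ∅ := by ext j; simp; omega
    rw [h1, h2, h3, sum_insert (by simp)]
    ring

lemma hgt_zero (φ : ℝ) (X : Conf) : hgt φ X 0 = 0 := by simp [hgt]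

lemma hgt_stp (φ : ℝ) (X : Conf) : Stp φ (hgt φ X) := by
  intro i
  rw [hgt_succ]
  rcases zz_cases X i with ⟨_, h⟩ | ⟨_, h⟩ <;> rw [h]
  · left; ring
  · right; ring

lemma hgt_sub (φ : ℝ) (X : Conf) {i j : ℤ} (h : i ≤ j) :
    hgt φ X j - hgt φ X i = ∑ l ∈ Ico i j, (zz X l - φ) := by
  obtain ⟨n, rfl⟩ := Int.le.dest h
  clear h
  induction n with
  | zero => simp
  | succ n ih =>
    have h1 : i + ((n + 1 : ℕ) : ℤ) = i + n + 1 := by push_cast; ring
    have h2 : Ico i (i + ((n + 1 : ℕ) : ℤ)) = insert (i + n) (Ico i (i + n)) := by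
      ext j; simp only [mem_Ico, mem_insert]; omega
    rw [h2, sum_insert (by simp), ← ih, h1, hgt_succ]
    ring

lemma hgt_congr {φ : ℝ} {X Y : Conf} {a b c : ℤ}
    (h : ∀ l, a ≤ l → l < b → X l = Y (l + c)) {i j : ℤ} (hi : i ∈ Set.Icc a b)
    (hj : j ∈ Set.Icc a b) :
    hgt φ X i - hgt φ X j = hgt φ Y (i + c) - hgt φ Y (j + c) := by
  have key : ∀ i j : ℤ, a ≤ i → i ≤ j → j ≤ b →
      hgt φ X j - hgt φ X i = hgt φ Y (j + c) - hgt φ Y (i + c) := by
    intro i j h1 h2 h3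
    rw [hgt_sub φ X h2, hgt_sub φ Y (by omega)]
    refine sum_bij (fun l _ => l + c) ?_ ?_ ?_ ?_
    · intro l hl; rw [mem_Ico] at *; omega
    · intro l _ l' _ hh; omega
    · intro l hl; rw [mem_Ico] at hl; exact ⟨l - c, by rw [mem_Ico]; omega, by ring⟩
    · intro l hl
      rw [mem_Ico] at hl
      rw [zz_congr (h l (by omega) (by omega))]
  rcases le_total i j with h1 | h1
  · have := key i j hi.1 h1 hj.2
    linarith
  · exact key j i hj.1 h1 hi.2

lemma G_congr {φ : ℝ} {X Y : Conf} {a b c : ℤ}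
    (h : ∀ l, a ≤ l → l < b → X l = Y (l + c)) :
    G (hgt φ X) a b ↔ G (hgt φ Y) (a + c) (b + c) := by
  constructor
  · intro hG i hi j hj
    have h1 := hG (i - c) ⟨by linarith [hi.1], by linarith [hi.2]⟩ (j - c)
      ⟨by linarith [hj.1], by linarith [hj.2]⟩
    rw [hgt_congr h ⟨by linarith [hi.1], by linarith [hi.2]⟩
      ⟨by linarith [hj.1], by linarith [hj.2]⟩] at h1
    simpa using h1
  · intro hG i hi j hj
    rw [hgt_congr h hi hj]
    exact hG _ ⟨by linarith [hi.1], by linarith [hi.2]⟩ _ ⟨by linarith [hj.1], by linarith [hj.2]⟩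

/-- the configurations all of whose windows are good -/
def Good (φ : ℝ) : Set Conf := {X | ∀ a b, G (hgt φ X) a b}

/-- the coding of the orbit of `y` -/
noncomputable def cod (φ y : ℝ) : Conf := fun n => if Int.fract (y + n * φ) < φ then 0 else 1

lemma st_eq (φ : ℝ) : st φ = cod φ 0 := by
  funext n; simp [st, cod]

lemma fract_step {φ : ℝ} (h0 : 0 < φ) (h1 : φ < 1) (u : ℝ) :
    Int.fract (u - φ) = Int.fract u - φ + (if Int.fract u < φ then 1 else 0) := by
  have e : u - φ = (Int.fract u - φ) + ⌊u⌋ := by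
    have := Int.fract_add_floor u
    linarith
  rw [e, Int.fract_add_intCast]
  have g0 := Int.fract_nonneg u
  have g1 := Int.fract_lt_one u
  split_ifs with h
  · have e : Int.fract u - φ = (Int.fract u - φ + 1) + ((-1 : ℤ) : ℝ) := by push_cast; ring
    rw [e, Int.fract_add_intCast, Int.fract_eq_self.2 ⟨by linarith, by linarith⟩]
    push_cast; ring
  · rw [Int.fract_eq_self.2 ⟨by linarith, by linarith⟩]; ring

lemma cod_step {φ : ℝ} (h0 : 0 < φ) (h1 : φ < 1) (y : ℝ) (i : ℤ) :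
    zz (cod φ y) i - φ = Int.fract (y + i * φ - φ) - Int.fract (y + i * φ) := by
  rw [fract_step h0 h1]
  unfold zz cod
  by_cases h : Int.fract (y + i * φ) < φ
  · simp only [h, if_true]; ring
  · simp only [h, if_false]
    rw [if_neg (by decide)]; ring

lemma cod_hgt {φ : ℝ} (h0 : 0 < φ) (h1 : φ < 1) (y : ℝ) {i j : ℤ} (h : i ≤ j) :
    hgt φ (cod φ y) j - hgt φ (cod φ y) i =
      Int.fract (y + (i - 1) * φ) - Int.fract (y + (j - 1) * φ) := by
  rw [hgt_sub φ _ h]
  obtain ⟨n, rfl⟩ := Int.le.dest h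
  clear h
  induction n with
  | zero => simp
  | succ n ih =>
    have h2 : Ico i (i + ((n + 1 : ℕ) : ℤ)) = insert (i + n) (Ico i (i + n)) := by
      ext j; simp only [mem_Ico, mem_insert]; omega
    rw [h2, sum_insert (by simp), ih, cod_step h0 h1]
    have e1 : y + ((i + n : ℤ) : ℝ) * φ - φ = y + (((i + n : ℤ) : ℝ) - 1) * φ := by ring
    have e2 : y + (((i + ((n + 1 : ℕ) : ℤ) : ℤ) : ℝ) - 1) * φ = y + ((i + n : ℤ) : ℝ) * φ := by
      push_cast; ring
    rw [e1, e2]
    ring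

lemma cod_good {φ : ℝ} (h0 : 0 < φ) (h1 : φ < 1) (y : ℝ) : cod φ y ∈ Good φ := by
  intro a b i _ j _
  have key : ∀ i j : ℤ, i ≤ j → |hgt φ (cod φ y) j - hgt φ (cod φ y) i| < 1 := by
    intro i j h
    rw [cod_hgt h0 h1 y h, abs_lt]
    have g0 := Int.fract_nonneg (y + ((i : ℝ) - 1) * φ)
    have g1 := Int.fract_lt_one (y + ((i : ℝ) - 1) * φ)
    have g2 := Int.fract_nonneg (y + ((j : ℝ) - 1) * φ)
    have g3 := Int.fract_lt_one (y + ((j : ℝ) - 1) * φ)
    constructor <;> linarith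
  rcases le_total i j with h | h
  · have := (abs_lt.1 (key i j h)).1
    linarith
  · exact (abs_lt.1 (key j i h)).2

lemma shift_cod (φ y : ℝ) (a : ℤ) : shift a (cod φ y) = cod φ (y - a * φ) := by
  funext n
  unfold shift cod
  have : y + ((n - a : ℤ) : ℝ) * φ = y - a * φ + n * φ := by push_cast; ring
  rw [this]

/-- finite windows determine neighbourhoods -/
lemma isOpen_window (X : Conf) (N : ℕ) :
    IsOpen {Y : Conf | ∀ l : ℤ, -(N : ℤ) ≤ l → l < N → Y l = X l} := by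
  have : {Y : Conf | ∀ l : ℤ, -(N : ℤ) ≤ l → l < N → Y l = X l} =
      ⋂ l ∈ Finset.Ico (-(N : ℤ)) N, {Y : Conf | Y l = X l} := by
    ext Y; simp
  rw [this]
  refine isOpen_biInter_finset fun l _ => ?_
  have h2 : Continuous fun Y : Conf => Y l := continuous_apply l
  exact h2.isOpen_preimage {X l} (isOpen_discrete _)

lemma window_basis {X : Conf} {U : Set Conf} (hU : IsOpen U) (hX : X ∈ U) :
    ∃ N : ℕ, ∀ Y : Conf, (∀ l : ℤ, -(N : ℤ) ≤ l → l < N → Y l = X l) → Y ∈ U := by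
  rw [isOpen_pi_iff] at hU
  obtain ⟨I, u, h1, h2⟩ := hU X hX
  refine ⟨I.sup (fun i => i.natAbs + 1), fun Y hY => h2 ?_⟩
  intro i hi
  have h3 : i.natAbs + 1 ≤ I.sup (fun i => i.natAbs + 1) :=
    Finset.le_sup (f := fun i : ℤ => i.natAbs + 1) hi
  rw [hY i (by omega) (by omega)]
  exact (h1 i hi).2

/-- density of the multiples of an irrational number -/
lemma dense_mult {φ : ℝ} (hφ : Irrational φ) (y δ : ℝ) (hδ : 0 < δ) :
    ∃ m p : ℤ, |m * φ - p - y| < δ := by
  have hd : Dense (AddSubgroup.closure {φ, 1} : Set ℝ) := by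
    rw [dense_addSubgroupClosure_pair_iff]
    simpa using hφ
  obtain ⟨z, hz, hz2⟩ := hd.exists_dist_lt y hδ
  rw [SetLike.mem_coe, AddSubgroup.mem_closure_pair] at hz
  obtain ⟨m, n, h⟩ := hz
  refine ⟨m, -n, ?_⟩
  rw [dist_comm, Real.dist_eq] at hz2
  rw [← h] at hz2
  simp only [zsmul_eq_mul, mul_one] at hz2
  push_cast
  rwa [sub_neg_eq_add]

/-- **The closure of the Sturmian orbit consists of the configurations all of whose windows are
good.** -/
lemma GSt_eq {φ : ℝ} (h0 : 0 < φ) (h1 : φ < 1) (hφ : Irrational φ) : GSt φ = Good φ := by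
  ext X
  unfold GSt
  rw [mem_closure_iff]
  constructor
  · intro hX a b
    obtain ⟨N, hN⟩ : ∃ N : ℕ, -(N : ℤ) ≤ a ∧ b ≤ N :=
      ⟨a.natAbs + b.natAbs, by omega, by omega⟩
    obtain ⟨Y, hY, ⟨c, hc⟩⟩ := hX _ (isOpen_window X N) fun _ _ _ => rfl
    simp only at hc
    rw [st_eq, shift_cod] at hc
    have h2 : G (hgt φ Y) a b := by rw [← hc]; exact cod_good h0 h1 _ a b
    have h3 := (G_congr (φ := φ) (X := Y) (Y := X) (a := a) (b := b) (c := 0) fun l hl1 hl2 => by
      simpa using hY l (by omega) (by omega)).1 h2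
    simpa using h3
  · intro hX U hU hXU
    obtain ⟨N, hN⟩ := window_basis hU hXU
    -- a point of the circle
    set s := hgt φ X with hs
    have hne : (Icc (-(N : ℤ)) (N + 1)).Nonempty := ⟨0, by rw [mem_Icc]; omega⟩
    obtain ⟨u, hu, hmax⟩ := (Icc (-(N : ℤ)) (N + 1)).exists_max_image s hne
    obtain ⟨v, hv, hmin⟩ := (Icc (-(N : ℤ)) (N + 1)).exists_min_image s hne
    have huv : s u - s v < 1 := hX (-(N : ℤ)) (N + 1) u (by simpa using hu) v (by simpa using hv)
    set δ := (1 - (s u - s v)) / 2 with hδ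
    have hδ0 : 0 < δ := by rw [hδ]; linarith
    set θ := s u + δ with hθ
    have hy : ∀ i ∈ Icc (-(N : ℤ)) (N + 1), δ ≤ θ - s i ∧ θ - s i ≤ 1 - δ := by
      intro i hi
      have a1 := hmax i hi
      have a2 := hmin i hi
      constructor
      · rw [hθ]; linarith
      · rw [hθ, hδ]; linarith
    -- the approximation
    obtain ⟨m, p, hmp⟩ := dense_mult hφ (θ - s (-(N : ℤ)) + (N + 1 : ℝ) * φ) δ hδ0
    refine ⟨shift (-m) (st φ), ?_, ⟨-m, rfl⟩⟩
    refine hN _ fun l hl1 hl2 => ?_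
    -- compute the fractional part
    obtain ⟨n, hn⟩ := Int.le.dest (show -(N : ℤ) ≤ l + 1 by omega)
    obtain ⟨z, hz⟩ := stp_int (hgt_stp φ X) (-(N : ℤ)) n
    rw [hn, ← hs] at hz
    have hnR : (n : ℝ) = l + 1 + N := by
      have : (n : ℤ) = l + 1 + N := by omega
      exact_mod_cast this
    have hfr : Int.fract (((l + m : ℤ) : ℝ) * φ) =
        θ - s (l + 1) + (m * φ - p - (θ - s (-(N : ℤ)) + (N + 1 : ℝ) * φ)) := by
      rw [Int.fract_eq_iff]
      have a1 := hy (l + 1) (by rw [mem_Icc]; omega)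
      have a2 := abs_lt.1 hmp
      refine ⟨by linarith [a1.1, a2.1], by linarith [a1.2, a2.2], ⟨p + z, ?_⟩⟩
      rw [hz, hnR]
      push_cast
      ring
    have hst : shift (-m) (st φ) l = if Int.fract (((l + m : ℤ) : ℝ) * φ) < φ then 0 else 1 := by
      unfold shift st
      have : l - -m = l + m := by ring
      rw [this]
    rw [hst, hfr]
    have a2 := abs_lt.1 hmp
    have b1 := hy l (by rw [mem_Icc]; omega)
    have step := hgt_succ φ X l
    rw [← hs] at step
    rcases zz_cases X l with ⟨h2, h3⟩ | ⟨h2, h3⟩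
    · rw [h3] at step
      rw [if_pos (by linarith [b1.2, a2.2]), h2]
    · rw [h3] at step
      rw [if_neg (by linarith [b1.1, a2.1])]
      omega

end Pool.Agent.Y660.ST
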