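import Pool.Agent.Y660.ST.Aff

/-!
# Interactions: summability, and the interaction that penalises bad windows
-/

set_option autoImplicit false

namespace Pool.Agent.Y660.ST

open Finset

/-! ## General facts -/

/-- the translation of finite sets -/
def tau (a : ℤ) : Finset ℤ ≃ Finset ℤ where
  toFun Λ := Λ.image fun i => i + a
  invFun Λ := Λ.image fun i => i - a
  left_inv Λ := by
    ext i
    simp only [mem_image]
    constructor
    · rintro ⟨j, ⟨k, hk, rfl⟩, h⟩
      have : k = i := by omega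
      rwa [← this]
    · intro h
      exact ⟨i + a, ⟨i, h, rfl⟩, by ring⟩
  right_inv Λ := by
    ext i
    simp only [mem_image]
    constructor
    · rintro ⟨j, ⟨k, hk, rfl⟩, h⟩
      have : k = i := by omega
      rwa [← this]
    · intro h
      exact ⟨i - a, ⟨i, h, rfl⟩, by ring⟩

lemma shift_shift (a : ℤ) (X : Conf) : shift a (shift (-a) X) = X := by
  funext i; simp [shift]

lemma bdd_val (Φ : Interaction) (Λ : Finset ℤ) : BddAbove (Set.range fun X => |Φ.val Λ X|) := by
  classical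
  have h : Set.range (fun X => |Φ.val Λ X|) ⊆
      Set.range (fun w : Λ → Fin 2 => |Φ.val Λ fun i => if h : i ∈ Λ then w ⟨i, h⟩ else 0|) := by
    rintro _ ⟨X, rfl⟩
    refine ⟨fun i => X i, ?_⟩
    show |Φ.val Λ _| = |Φ.val Λ _|
    congr 1
    refine Φ.loc Λ _ _ fun i hi => ?_
    simp [hi]
  exact (Set.finite_range _).bddAbove.mono h

lemma val_le (Φ : Interaction) (Λ : Finset ℤ) (X : Conf) : |Φ.val Λ X| ≤ nrm Φ Λ :=
  le_ciSup (bdd_val Φ Λ) X

lemma nrm_nonneg (Φ : Interaction) (Λ : Finset ℤ) : 0 ≤ nrm Φ Λ :=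
  (abs_nonneg _).trans (val_le Φ Λ fun _ => 0)

lemma nrm_le {Φ : Interaction} {Λ : Finset ℤ} {c : ℝ} (h : ∀ X, |Φ.val Λ X| ≤ c) :
    nrm Φ Λ ≤ c := ciSup_le h

lemma nrm_tau (Φ : Interaction) (a : ℤ) (Λ : Finset ℤ) : nrm Φ (tau a Λ) = nrm Φ Λ := by
  apply le_antisymm
  · refine nrm_le fun X => ?_
    have h := Φ.inv a Λ (shift (-a) X)
    rw [shift_shift] at h
    show |Φ.val (Λ.image fun i => i + a) X| ≤ _
    rw [h]
    exact val_le Φ Λ _
  · refine nrm_le fun X => ?_
    rw [← Φ.inv a Λ X]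
    exact val_le Φ _ _

open Classical in
/-- `‖Φ_Λ‖` for `Λ ∋ d` -/
noncomputable def nd (Φ : Interaction) (d : ℤ) (Λ : Finset ℤ) : ℝ := if d ∈ Λ then nrm Φ Λ else 0

lemma nd_nonneg (Φ : Interaction) (d : ℤ) (Λ : Finset ℤ) : 0 ≤ nd Φ d Λ := by
  classical
  unfold nd
  split_ifs
  · exact nrm_nonneg Φ Λ
  · exact le_rfl

lemma nd_tau (Φ : Interaction) (d : ℤ) (Λ : Finset ℤ) : nd Φ d (tau d Λ) = nd Φ 0 Λ := by
  classical
  unfold nd
  rw [nrm_tau]
  have : d ∈ tau d Λ ↔ 0 ∈ Λ := by simp [tau]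
  simp only [this]

lemma summable_nd {Φ : Interaction} (h : IsSummable Φ) (d : ℤ) : Summable (nd Φ d) := by
  classical
  have h0 : Summable (nd Φ 0) := by
    have h1 := (summable_subtype_iff_indicator (f := nrm Φ)
      (s := {Λ : Finset ℤ | 0 ∈ Λ})).1 h
    refine h1.congr fun Λ => ?_
    by_cases h2 : 0 ∈ Λ
    · simp [nd, h2, Set.indicator]
    · simp [nd, h2, Set.indicator]
  rw [← (tau d).summable_iff]
  exact h0.congr fun Λ => (nd_tau Φ d Λ).symm

/-- the norm of the interaction -/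
noncomputable def NN (Φ : Interaction) : ℝ := ∑' Λ, nd Φ 0 Λ

lemma tsum_nd (Φ : Interaction) (d : ℤ) : ∑' Λ, nd Φ d Λ = NN Φ := by
  rw [← (tau d).tsum_eq]
  exact tsum_congr fun Λ => nd_tau Φ d Λ

lemma diff_le (Φ : Interaction) {X Y : Conf} (S : Finset ℤ) (hS : ∀ i, Y i ≠ X i → i ∈ S)
    (Λ : Finset ℤ) : |Φ.val Λ Y - Φ.val Λ X| ≤ ∑ d ∈ S, 2 * nd Φ d Λ := by
  classical
  by_cases h : ∃ d ∈ Λ, d ∈ S
  · obtain ⟨d, hd, hdS⟩ := h
    have h1 : 2 * nd Φ d Λ ≤ ∑ d ∈ S, 2 * nd Φ d Λ :=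
      single_le_sum (f := fun d => 2 * nd Φ d Λ) (fun e _ => by
        have := nd_nonneg Φ e Λ; linarith) hdS
    refine le_trans ?_ h1
    have h2 : nd Φ d Λ = nrm Φ Λ := by simp [nd, hd]
    rw [h2]
    refine (abs_sub _ _).trans ?_
    linarith [val_le Φ Λ X, val_le Φ Λ Y]
  · have h1 : Φ.val Λ Y = Φ.val Λ X := Φ.loc Λ _ _ fun i hi => by
      by_contra hne
      exact h ⟨i, hi, hS i hne⟩
    rw [h1]
    simp only [sub_self, abs_zero]
    exact sum_nonneg fun d _ => by have := nd_nonneg Φ d Λ; linarith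

lemma summable_rel {Φ : Interaction} (h : IsSummable Φ) {X Y : Conf} (hXY : Exc Y X) :
    Summable fun Λ => Φ.val Λ Y - Φ.val Λ X := by
  refine Summable.of_norm_bounded (g := fun Λ => ∑ d ∈ hXY.toFinset, 2 * nd Φ d Λ) ?_ fun Λ => ?_
  · exact summable_sum fun d _ => (summable_nd h d).mul_left 2
  · rw [Real.norm_eq_abs]
    exact diff_le Φ _ (fun i hi => hXY.mem_toFinset.2 hi) Λ

lemma finRange_summable {Ψ : Interaction} (h : FinRange Ψ) : IsSummable Ψ := by
  classical
  obtain ⟨r, hr⟩ := h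
  have : (Function.support fun Λ : {Λ : Finset ℤ // 0 ∈ Λ} => nrm Ψ Λ).Finite := by
    have h1 : (Function.support fun Λ : {Λ : Finset ℤ // 0 ∈ Λ} => nrm Ψ Λ) ⊆
        Subtype.val ⁻¹' (((Icc (-r) r).powerset : Finset (Finset ℤ)) : Set (Finset ℤ)) := by
      rintro ⟨Λ, h0⟩ hΛ
      simp only [Function.mem_support] at hΛ
      simp only [Set.mem_preimage, mem_coe, mem_powerset]
      intro i hi
      by_contra hcon
      apply hΛ
      rw [mem_Icc, not_and_or, not_le, not_le] at hcon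
      have h2 : ∃ i ∈ Λ, ∃ j ∈ Λ, r < j - i := by
        rcases hcon with h | h
        · exact ⟨i, hi, 0, h0, by omega⟩
        · exact ⟨0, h0, i, hi, by omega⟩
      apply le_antisymm
      · exact nrm_le fun X => by rw [hr Λ h2 X]; simp
      · exact nrm_nonneg Ψ Λ
    exact ((Finset.finite_toSet _).preimage Subtype.val_injective.injOn).subset h1
  exact summable_of_hasFiniteSupport this

lemma pert_summable {Φ Ψ : Interaction} (h : IsSummable Φ) (h' : IsSummable Ψ) (ε : ℝ) :
    IsSummable (pert Φ Ψ ε) := by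
  refine Summable.of_nonneg_of_le (fun Λ => nrm_nonneg _ _) (fun Λ => ?_)
    (h.add (h'.mul_left |ε|))
  refine nrm_le fun X => ?_
  show |Φ.val Λ X + ε * Ψ.val Λ X| ≤ _
  refine (abs_add_le _ _).trans ?_
  rw [abs_mul]
  have := val_le Φ Λ X
  have := val_le Ψ Λ X
  gcongr

lemma rel_pert {Φ Ψ : Interaction} (h : IsSummable Φ) (h' : IsSummable Ψ) (ε : ℝ) {X Y : Conf}
    (hXY : Exc Y X) : rel (pert Φ Ψ ε) Y X = rel Φ Y X + ε * rel Ψ Y X := by
  unfold rel
  rw [← tsum_mul_left, ← (summable_rel h hXY).tsum_add ((summable_rel h' hXY).mul_left ε)]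
  refine tsum_congr fun Λ => ?_
  show (Φ.val Λ Y + ε * Ψ.val Λ Y) - (Φ.val Λ X + ε * Ψ.val Λ X) = _
  ring

/-! ## The interaction -/

open Classical in
/-- the interaction that penalises the bad windows -/
noncomputable def Win (φ : ℝ) (R : ℕ → ℝ) : Interaction where
  val Λ X := if ∃ a : ℤ, Λ = Ico a (a + Λ.card) ∧ ¬ G (hgt φ X) a (a + Λ.card) then
    cf R Λ.card else 0
  loc Λ X Y h := by
    have : (∃ a : ℤ, Λ = Ico a (a + Λ.card) ∧ ¬ G (hgt φ X) a (a + Λ.card)) ↔
        ∃ a : ℤ, Λ = Ico a (a + Λ.card) ∧ ¬ G (hgt φ Y) a (a + Λ.card) := by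
      refine exists_congr fun a => and_congr_right fun ha => ?_
      have h1 := G_congr (φ := φ) (X := X) (Y := Y) (a := a) (b := a + Λ.card) (c := 0)
        fun l h1 h2 => by
          rw [add_zero]
          exact h l (by rw [ha, mem_Ico]; exact ⟨h1, h2⟩)
      rw [h1]; simp
    simp only [this]
  inv t Λ X := by
    have hcard : (Λ.image fun i => i + t).card = Λ.card :=
      card_image_of_injective _ fun a b h => by simpa using h
    have : (∃ a : ℤ, (Λ.image fun i => i + t) = Ico a (a + (Λ.image fun i => i + t).card) ∧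
        ¬ G (hgt φ (shift t X)) a (a + (Λ.image fun i => i + t).card)) ↔
        ∃ a : ℤ, Λ = Ico a (a + Λ.card) ∧ ¬ G (hgt φ X) a (a + Λ.card) := by
      rw [hcard]
      constructor
      · rintro ⟨a, h1, h2⟩
        refine ⟨a - t, ?_, ?_⟩
        · ext i
          have h3 : i ∈ Λ ↔ i + t ∈ (Λ.image fun i => i + t) := by simp
          rw [h3, h1, mem_Ico, mem_Ico]
          constructor <;> (intro h; omega)
        · intro h3
          apply h2
          have h4 := G_congr (φ := φ) (X := X) (Y := shift t X) (a := a - t)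
            (b := a - t + Λ.card) (c := t) fun l _ _ => by simp [shift]
          have e1 : a - t + t = a := by ring
          have e2 : a - t + Λ.card + t = a + Λ.card := by ring
          rw [e1, e2] at h4
          exact h4.1 h3
      · rintro ⟨a, h1, h2⟩
        refine ⟨a + t, ?_, ?_⟩
        · ext i
          have h3 : i ∈ (Λ.image fun i => i + t) ↔ i - t ∈ Λ := by
            simp only [mem_image]
            constructor
            · rintro ⟨j, hj, rfl⟩; simpa using hj
            · intro h; exact ⟨i - t, h, by ring⟩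
          have h5 : i - t ∈ Λ ↔ i - t ∈ Ico a (a + Λ.card) :=
            iff_of_eq (congrArg (fun S => i - t ∈ S) h1)
          rw [h3, h5, mem_Ico, mem_Ico]
          constructor <;> (intro h; omega)
        · intro h3
          apply h2
          have h4 := G_congr (φ := φ) (X := X) (Y := shift t X) (a := a)
            (b := a + Λ.card) (c := t) fun l _ _ => by simp [shift]
          have e2 : a + t + Λ.card = a + Λ.card + t := by ring
          rw [e2] at h3
          exact h4.2 h3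
    exact if_congr this (by rw [hcard]) rfl

open Classical in
lemma win_val (φ : ℝ) (R : ℕ → ℝ) (Λ : Finset ℤ) (X : Conf) : (Win φ R).val Λ X =
    if ∃ a : ℤ, Λ = Ico a (a + Λ.card) ∧ ¬ G (hgt φ X) a (a + Λ.card) then
      cf R Λ.card else 0 := rfl

end Pool.Agent.Y660.ST
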