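import Pool.Agent.Y660.ST.Stab

/-!
# The Sturmian measure
-/

set_option autoImplicit false

namespace Pool.Agent.Y660.ST

open Finset Filter MeasureTheory

variable {φ : ℝ} {R : ℕ → ℝ}

lemma measurable_shift (a : ℤ) : Measurable (shift a) :=
  measurable_pi_lambda _ fun _ => measurable_pi_apply _

/-- local functions are measurable -/
lemma meas_loc (S : Finset ℤ) {F : Conf → ℝ} (h : ∀ X Y : Conf, (∀ i ∈ S, X i = Y i) → F X = F Y) :
    Measurable F := by
  classical
  have e : F = (fun w : S → Fin 2 => F fun i => if h : i ∈ S then w ⟨i, h⟩ else 0) ∘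
      (fun X : Conf => fun i : S => X i) := by
    funext X
    show F X = F _
    refine h _ _ fun i hi => ?_
    simp [hi]
  rw [e]
  exact Measurable.of_discrete.comp (measurable_pi_lambda _ fun i => measurable_pi_apply _)

/-- local functions are bounded -/
lemma bdd_loc (S : Finset ℤ) {F : Conf → ℝ} (h : ∀ X Y : Conf, (∀ i ∈ S, X i = Y i) → F X = F Y) :
    ∃ M, ∀ X, |F X| ≤ M := by
  classical
  have h2 : Set.range (fun X => |F X|) ⊆
      Set.range (fun w : S → Fin 2 => |F fun i => if h : i ∈ S then w ⟨i, h⟩ else 0|) := by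
    rintro _ ⟨X, rfl⟩
    refine ⟨fun i => X i, ?_⟩
    show |F _| = |F _|
    congr 1
    refine h _ _ fun i hi => ?_
    simp [hi]
  obtain ⟨M, hM⟩ := (Set.finite_range _).bddAbove.mono h2
  exact ⟨M, fun X => hM ⟨X, rfl⟩⟩

/-- local functions are integrable -/
lemma int_loc {μ : Measure Conf} [IsProbabilityMeasure μ] (S : Finset ℤ) {F : Conf → ℝ}
    (h : ∀ X Y : Conf, (∀ i ∈ S, X i = Y i) → F X = F Y) : Integrable F μ := by
  obtain ⟨M, hM⟩ := bdd_loc S h
  exact Integrable.of_bound (meas_loc S h).aestronglyMeasurable M (Eventually.of_forall hM)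

lemma inv_int {μ : Measure Conf} (hμ : Inv μ) (a : ℤ) (S : Finset ℤ) {F : Conf → ℝ}
    (h : ∀ X Y : Conf, (∀ i ∈ S, X i = Y i) → F X = F Y) :
    ∫ X, F (shift a X) ∂μ = ∫ X, F X ∂μ := by
  conv_rhs => rw [← hμ.2 a]
  rw [integral_map (measurable_shift a).aemeasurable]
  exact (meas_loc S h).aestronglyMeasurable

lemma zz_loc (i : ℤ) : ∀ X Y : Conf, (∀ j ∈ ({i} : Finset ℤ), X j = Y j) → zz X i = zz Y i :=
  fun _ _ h => zz_congr (h i (by simp))

/-- all letters have the same frequency -/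
lemma int_zz {μ : Measure Conf} (hμ : Inv μ) (i : ℤ) : ∫ X, zz X i ∂μ = ∫ X, zz X 0 ∂μ := by
  have h := inv_int hμ (-i) {0} (F := fun X => zz X 0) (zz_loc 0)
  rw [← h]
  congr 1
  funext X
  exact zz_congr (by simp [shift])

/-- the frequency of the letter `0` -/
lemma freq {μ : Measure Conf} (hμ : Inv μ) (hG : ∀ᵐ X ∂μ, X ∈ Good φ) :
    ∫ X, zz X 0 ∂μ = φ := by
  have := hμ.1
  have hb : ∀ N : ℕ, |(N : ℝ) * (∫ X, zz X 0 ∂μ - φ)| ≤ 1 := by
    intro N
    have hi : ∀ l ∈ range N, Integrable (fun X : Conf => zz X l - φ) μ := fun l _ =>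
      (int_loc {(l : ℤ)} (zz_loc l)).sub (integrable_const φ)
    have h1 : (N : ℝ) * (∫ X, zz X 0 ∂μ - φ) = ∫ X, ∑ l ∈ range N, (zz X l - φ) ∂μ := by
      rw [integral_finset_sum _ hi]
      have : ∀ l ∈ range N, ∫ X, (zz X l - φ) ∂μ = ∫ X, zz X 0 ∂μ - φ := by
        intro l _
        rw [integral_sub (int_loc {(l : ℤ)} (zz_loc l)) (integrable_const φ), int_zz hμ]
        simp
      rw [sum_congr rfl this]
      simp only [sum_const, card_range, nsmul_eq_mul]
    rw [h1]
    have h2 : ∀ᵐ X ∂μ, ‖∑ l ∈ range N, (zz X l - φ)‖ ≤ 1 := ?_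
    · have h3 := norm_integral_le_of_norm_le_const h2
      simpa using h3
    filter_upwards [hG] with X hX
    rw [← hgt_nat, Real.norm_eq_abs, abs_le]
    have a1 := hX 0 N N ⟨by omega, le_rfl⟩ 0 ⟨le_rfl, by omega⟩
    have a2 := hX 0 N 0 ⟨le_rfl, by omega⟩ N ⟨by omega, le_rfl⟩
    rw [hgt_zero] at a1 a2
    constructor <;> linarith
  by_contra hne
  have h2 : 0 < |∫ X, zz X 0 ∂μ - φ| := abs_pos.2 (sub_ne_zero.2 hne)
  obtain ⟨N, hN⟩ := exists_nat_gt (1 / |∫ X, zz X 0 ∂μ - φ|)
  rw [div_lt_iff₀ h2] at hN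
  have := hb N
  rw [abs_mul, abs_of_nonneg (by positivity : (0 : ℝ) ≤ N)] at this
  linarith

lemma loc_S {n : ℕ} {F : Conf → ℝ} (hF : Loc n F) :
    ∀ X Y : Conf, (∀ i ∈ Ico (0 : ℤ) n, X i = Y i) → F X = F Y :=
  fun X Y h => hF X Y fun i h1 h2 => h i (mem_Ico.2 ⟨h1, h2⟩)

/-- the mean of a local function -/
lemma mean {n : ℕ} {F : Conf → ℝ} (hF : Loc n F) : ∃ b0 : ℝ, ∀ μ : Measure Conf, Inv μ →
    (∀ᵐ X ∂μ, X ∈ Good φ) → ∫ X, F X ∂μ = b0 := by
  obtain ⟨b0, b, hb⟩ := aff_of_loc (φ := φ) n n le_rfl F hF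
  refine ⟨b0, fun μ hμ hG => ?_⟩
  have := hμ.1
  have h1 : ∫ X, F X ∂μ = ∫ X, (b0 + ∑ l ∈ range n, b l * (zz X l - φ)) ∂μ :=
    integral_congr_ae (by filter_upwards [hG] with X hX using hb X (hX _ _))
  have hi : ∀ l ∈ range n, Integrable (fun X : Conf => b l * (zz X l - φ)) μ := fun l _ =>
    ((int_loc {(l : ℤ)} (zz_loc l)).sub (integrable_const φ)).const_mul _
  rw [h1, integral_add (integrable_const _) (integrable_finset_sum _ hi),
    integral_finset_sum _ hi]
  have : ∀ l ∈ range n, ∫ X, b l * (zz X l - φ) ∂μ = 0 := by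
    intro l _
    rw [integral_const_mul, integral_sub (int_loc {(l : ℤ)} (zz_loc l)) (integrable_const φ),
      int_zz hμ, freq hμ hG]
    simp
  rw [sum_congr rfl this]
  simp

/-- **The invariant measure on the good configurations is unique.** -/
lemma good_unique {μ ν : Measure Conf} (hμ : Inv μ) (hν : Inv ν) (hGμ : ∀ᵐ X ∂μ, X ∈ Good φ)
    (hGν : ∀ᵐ X ∂ν, X ∈ Good φ) : μ = ν := by
  classical
  have := hμ.1
  have := hν.1
  refine ext_of_generate_finite (measurableCylinders fun _ : ℤ => Fin 2)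
    generateFrom_measurableCylinders.symm isPiSystem_measurableCylinders (fun C hC => ?_) (by simp)
  obtain ⟨S, A, hA, rfl⟩ := (mem_measurableCylinders _).1 hC
  obtain ⟨N, hN⟩ : ∃ N : ℕ, ∀ i ∈ S, -(N : ℤ) ≤ i ∧ i < N := by
    refine ⟨S.sup (fun i => i.natAbs + 1), fun i hi => ?_⟩
    have h3 : i.natAbs + 1 ≤ S.sup (fun i => i.natAbs + 1) :=
      Finset.le_sup (f := fun i : ℤ => i.natAbs + 1) hi
    omega
  -- the indicator of the cylinder
  set F : Conf → ℝ := fun X => if (fun i : S => X i) ∈ A then 1 else 0 with hF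
  have hFl : ∀ X Y : Conf, (∀ i ∈ S, X i = Y i) → F X = F Y := by
    intro X Y h
    simp only [hF]
    have : (fun i : S => X i) = fun i : S => Y i := funext fun i => h i i.2
    rw [this]
  have hFl2 : Loc (2 * N) fun X => F (shift (-(N : ℤ)) X) := by
    intro X Y h
    refine hFl _ _ fun i hi => ?_
    have := hN i hi
    exact h _ (by omega) (by push_cast; omega)
  obtain ⟨b0, hb⟩ := mean (φ := φ) hFl2
  have key : ∀ μ : Measure Conf, Inv μ → (∀ᵐ X ∂μ, X ∈ Good φ) →
      (μ (cylinder S A)).toReal = b0 := by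
    intro μ hμ hG
    rw [← hb μ hμ hG, inv_int hμ _ S hFl]
    have : F = Set.indicator (cylinder S A) fun _ => (1 : ℝ) := by
      funext X
      simp only [hF, Set.indicator, mem_cylinder]
      rfl
    rw [this, integral_indicator (hA.cylinder S)]
    simp [Measure.real]
  have h1 := key μ hμ hGμ
  have h2 := key ν hν hGν
  rw [← h1] at h2
  exact ((ENNReal.toReal_eq_toReal_iff' (measure_ne_top _ _) (measure_ne_top _ _)).1 h2).symm

/-! ## Existence -/

lemma cod_add_int (φ y : ℝ) (z : ℤ) : cod φ (y + z) = cod φ y := by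
  funext n
  unfold cod
  have : y + z + n * φ = y + n * φ + z := by ring
  rw [this, Int.fract_add_intCast]

lemma cod_fract (φ y : ℝ) : cod φ (Int.fract y) = cod φ y := by
  have h := cod_add_int φ (Int.fract y) ⌊y⌋
  rw [Int.fract_add_floor] at h
  exact h.symm

lemma measurable_cod (φ : ℝ) : Measurable (cod φ) := by
  refine measurable_pi_lambda _ fun n => ?_
  unfold cod
  refine Measurable.ite ?_ measurable_const measurable_const
  exact measurableSet_lt (measurable_fract.comp (measurable_id.add_const _)) measurable_const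

/-- the coding of the points of the circle -/
noncomputable def cc (φ : ℝ) (x : UnitAddCircle) : Conf :=
  cod φ (AddCircle.equivIco (1 : ℝ) 0 x : ℝ)

lemma cc_coe (φ y : ℝ) : cc φ (y : UnitAddCircle) = cod φ y := by
  unfold cc
  have h : ((AddCircle.equivIco (1 : ℝ) 0 (y : UnitAddCircle) : ℝ)) = Int.fract y := by
    have := AddCircle.coe_equivIco_mk_apply (1 : ℝ) y
    rw [div_one, mul_one] at this
    exact this
  rw [h, cod_fract]

lemma measurable_cc (φ : ℝ) : Measurable (cc φ) :=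
  (measurable_cod φ).comp (measurable_subtype_coe.comp
    (AddCircle.measurableEquivIco (1 : ℝ) 0).measurable)

lemma shift_cc (φ : ℝ) (a : ℤ) (x : UnitAddCircle) :
    shift a (cc φ x) = cc φ (x + ((-(a * φ) : ℝ) : UnitAddCircle)) := by
  obtain ⟨y, rfl⟩ := QuotientAddGroup.mk_surjective x
  have h1 : cc φ (QuotientAddGroup.mk y) = cod φ y := cc_coe φ y
  have h2 : ((QuotientAddGroup.mk y : UnitAddCircle) + ((-(a * φ) : ℝ) : UnitAddCircle)) =
      ((y - a * φ : ℝ) : UnitAddCircle) := by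
    rw [sub_eq_add_neg]; rfl
  rw [h1, h2, cc_coe, shift_cod]

/-- the Sturmian measure -/
noncomputable def sturm (φ : ℝ) : Measure Conf := (volume : Measure UnitAddCircle).map (cc φ)

lemma sturm_inv (φ : ℝ) : Inv (sturm φ) := by
  constructor
  · have : IsProbabilityMeasure (volume : Measure UnitAddCircle) := ⟨by simp⟩
    exact Measure.isProbabilityMeasure_map (measurable_cc φ).aemeasurable
  · intro a
    unfold sturm
    rw [Measure.map_map (measurable_shift a) (measurable_cc φ)]
    have h : shift a ∘ cc φ = cc φ ∘ fun x => x + ((-(a * φ) : ℝ) : UnitAddCircle) := by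
      funext x; exact shift_cc φ a x
    rw [h, ← Measure.map_map (measurable_cc φ) (measurable_add_const _),
      map_add_right_eq_self]

lemma sturm_good (h0 : 0 < φ) (h1 : φ < 1) : ∀ᵐ X ∂(sturm φ), X ∈ Good φ := by
  have hm : MeasurableSet (Good φ) := by
    have : Good φ = ⋂ a : ℤ, ⋂ b : ℤ, {X | G (hgt φ X) a b} := by
      ext X; simp [Good]
    rw [this]
    refine MeasurableSet.iInter fun a => MeasurableSet.iInter fun b => ?_
    classical
    have h2 : Measurable fun X : Conf => if G (hgt φ X) a b then (1 : ℝ) else 0 := by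
      refine meas_loc (Ico a b) fun X Y h => ?_
      have h3 := G_congr (φ := φ) (X := X) (Y := Y) (a := a) (b := b) (c := 0)
        fun l h1 h2 => by
          rw [add_zero]
          exact h l (mem_Ico.2 ⟨h1, h2⟩)
      rw [add_zero, add_zero] at h3
      simp only [h3]
    have h4 : {X : Conf | G (hgt φ X) a b} =
        (fun X : Conf => if G (hgt φ X) a b then (1 : ℝ) else 0) ⁻¹' {1} := by
      ext X
      by_cases h : G (hgt φ X) a b <;> simp [h]
    rw [h4]
    exact h2 (measurableSet_singleton 1)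
  unfold sturm
  refine (ae_map_iff (p := fun X => X ∈ Good φ) (measurable_cc φ).aemeasurable hm).2 ?_
  exact Eventually.of_forall fun x => cod_good h0 h1 _

end Pool.Agent.Y660.ST
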