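import Pool.Agent.Y660.ST.Win

/-!
# Good configurations are ground-state configurations of the perturbed interactions
-/

set_option autoImplicit false

namespace Pool.Agent.Y660.ST

open Finset Filter

variable {φ : ℝ} {R : ℕ → ℝ}

lemma tele (g : ℤ → ℝ) {a b : ℤ} (h : a ≤ b) : ∑ i ∈ Ico a b, (g (i + 1) - g i) = g b - g a := by
  obtain ⟨n, rfl⟩ := Int.le.dest h
  clear h
  induction n with
  | zero => simp
  | succ n ih =>
    have h2 : Ico a (a + ((n + 1 : ℕ) : ℤ)) = insert (a + n) (Ico a (a + n)) := by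
      ext j; simp only [mem_Ico, mem_insert]; omega
    rw [h2, sum_insert (by simp), ih]
    have : a + ((n + 1 : ℕ) : ℤ) = a + n + 1 := by push_cast; ring
    rw [this]
    ring

/-- the variation of `f` over a long interval -/
lemma f_var (h0 : 0 < φ) (h1 : φ < 1) (hR : Bd φ R) (Y : Conf) {k : ℕ} (hk : 1 ≤ k) (N : ℕ) :
    |f (hgt φ Y) k N - f (hgt φ Y) k (-(N : ℤ))| ≤
      2688 * ∑ i ∈ Ico (-(N : ℤ)) N, en R (hgt φ Y) (2 * k) i + 84 * N * rho R (k + 1) := by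
  rw [← tele (f (hgt φ Y) k) (by omega : -(N : ℤ) ≤ N)]
  refine (abs_sum_le_sum_abs _ _).trans ((sum_le_sum fun i _ =>
    f_step' h0 h1 hR (hgt_stp φ Y) hk i).trans ?_)
  rw [sum_add_distrib, ← mul_sum, sum_const, Int.card_Ico, nsmul_eq_mul]
  have : (((N : ℤ) - -(N : ℤ)).toNat : ℝ) = 2 * N := by
    have : ((N : ℤ) - -(N : ℤ)).toNat = 2 * N := by omega
    rw [this]; push_cast; ring
  rw [this]
  linarith

lemma good_en {X : Conf} (hX : X ∈ Good φ) (m : ℕ) (i : ℤ) : en R (hgt φ X) m i = 0 := by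
  classical
  unfold en
  exact sum_eq_zero fun r _ => if_pos (hX _ _)

/-- the difference of the numbers of the letter `0` -/
noncomputable def dl (N : ℕ) (Y X : Conf) : ℝ := ∑ i ∈ Ico (-(N : ℤ)) N, (zz Y i - zz X i)

/-- the heights outside the window of the excitation -/
lemma hgt_out {X Y : Conf} {N : ℕ} (hN : ∀ i, Y i ≠ X i → -(N : ℤ) ≤ i ∧ i < N) :
    (∀ l : ℤ, l ≤ -(N : ℤ) → hgt φ Y l = hgt φ X l + (hgt φ Y (-(N : ℤ)) - hgt φ X (-(N : ℤ)))) ∧
    (∀ l : ℤ, (N : ℤ) ≤ l → hgt φ Y l = hgt φ X l + (hgt φ Y (-(N : ℤ)) - hgt φ X (-(N : ℤ))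
      + dl N Y X)) := by
  constructor
  · intro l hl
    have h1 := hgt_sub φ Y hl
    have h2 := hgt_sub φ X hl
    have h3 : ∑ i ∈ Ico l (-(N : ℤ)), (zz Y i - φ) = ∑ i ∈ Ico l (-(N : ℤ)), (zz X i - φ) := by
      refine sum_congr rfl fun i hi => ?_
      rw [mem_Ico] at hi
      have : Y i = X i := by
        by_contra hne
        have := hN i hne
        omega
      rw [zz_congr this]
    linarith
  · intro l hl
    have h1 := hgt_sub φ Y (by omega : -(N : ℤ) ≤ l)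
    have h2 := hgt_sub φ X (by omega : -(N : ℤ) ≤ l)
    have h3 : ∑ i ∈ Ico (-(N : ℤ)) l, (zz Y i - φ) - ∑ i ∈ Ico (-(N : ℤ)) l, (zz X i - φ) =
        dl N Y X := by
      unfold dl
      rw [← sum_sub_distrib]
      symm
      refine (sum_subset (Ico_subset_Ico le_rfl hl) fun i _ hi => ?_).trans
        (sum_congr rfl fun i _ => by ring)
      have : Y i = X i := by
        by_contra hne
        exact hi (mem_Ico.2 (hN i hne))
      rw [zz_congr this]; ring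
    linarith

/-- **The chemical potential is controlled by the energy.** -/
lemma dl_le (h0 : 0 < φ) (h1 : φ < 1) (hR : Adm φ R) {X Y : Conf} (hX : X ∈ Good φ)
    (hXY : Exc Y X) {N₀ : ℕ} (hN : ∀ i, Y i ≠ X i → -(N₀ : ℤ) ≤ i ∧ i < N₀) :
    |dl N₀ Y X| ≤ 2688 * rel (Win φ R) Y X := by
  have key : ∀ k : ℕ, 1 ≤ k → |dl N₀ Y X| ≤
      2688 * rel (Win φ R) Y X + 168 * (N₀ + 1) * (R (k + 1) / ((k + 1 : ℕ) : ℝ)) := by
    intro k hk
    obtain ⟨o1, o2⟩ := hgt_out (φ := φ) hN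
    set c := hgt φ Y (-(N₀ : ℤ)) - hgt φ X (-(N₀ : ℤ)) with hc
    have e1 : f (hgt φ Y) k ((N₀ + k : ℕ) : ℤ) = f (hgt φ X) k ((N₀ + k : ℕ) : ℤ) +
        (c + dl N₀ Y X) := by
      refine f_cov hk fun l hl => o2 _ ?_
      have := (abs_le.1 hl).1
      push_cast; omega
    have e2 : f (hgt φ Y) k (-((N₀ + k : ℕ) : ℤ)) = f (hgt φ X) k (-((N₀ + k : ℕ) : ℤ)) + c := by
      refine f_cov hk fun l hl => o1 _ ?_
      have := (abs_le.1 hl).2
      push_cast; omega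
    have v1 := f_var h0 h1 hR.toBd Y hk (N₀ + k)
    have v2 := f_var h0 h1 hR.toBd X hk (N₀ + k)
    rw [sum_congr rfl fun i _ => good_en hX (2 * k) i, sum_const_zero, mul_zero, zero_add] at v2
    have w := (wins_sum hR.toBd Y (N₀ + k) (2 * k)).trans (win_rel hR hX hXY _)
    have h2 : ((N₀ + k : ℕ) : ℝ) * rho R (k + 1) ≤ (N₀ + 1) * (R (k + 1) / ((k + 1 : ℕ) : ℝ)) := by
      unfold rho
      have h3 := hR.toBd.nonneg (k + 1)
      push_cast
      rw [← mul_div_assoc, ← mul_div_assoc, div_le_div_iff₀ (by positivity) (by positivity)]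
      have h4 : ((N₀ : ℝ) + k) * (k + 1) ≤ (N₀ + 1) * (k + 1) ^ 2 := by
        have : (0 : ℝ) ≤ N₀ := by positivity
        have : (0 : ℝ) ≤ k := by positivity
        nlinarith [mul_nonneg (by positivity : (0 : ℝ) ≤ N₀) (by positivity : (0 : ℝ) ≤ k),
          mul_nonneg (mul_nonneg (by positivity : (0 : ℝ) ≤ N₀) (by positivity : (0 : ℝ) ≤ k))
            (by positivity : (0 : ℝ) ≤ k)]
      calc ((N₀ : ℝ) + k) * R (k + 1) * (k + 1) = R (k + 1) * (((N₀ : ℝ) + k) * (k + 1)) := by ring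
        _ ≤ R (k + 1) * ((N₀ + 1) * (k + 1) ^ 2) := by gcongr
        _ = _ := by ring
    have e3 : dl N₀ Y X = (f (hgt φ Y) k ((N₀ + k : ℕ) : ℤ) - f (hgt φ Y) k (-((N₀ + k : ℕ) : ℤ))) -
        (f (hgt φ X) k ((N₀ + k : ℕ) : ℤ) - f (hgt φ X) k (-((N₀ + k : ℕ) : ℤ))) := by
      rw [e1, e2]; ring
    rw [e3]
    refine (abs_sub _ _).trans ?_
    linarith
  have hlim : Tendsto (fun k : ℕ => 2688 * rel (Win φ R) Y X +
      168 * (N₀ + 1) * (R (k + 1) / ((k + 1 : ℕ) : ℝ))) atTop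
      (nhds (2688 * rel (Win φ R) Y X + 168 * (N₀ + 1) * 0)) :=
    tendsto_const_nhds.add (((tendsto_add_atTop_iff_nat
      (f := fun m : ℕ => R m / (m : ℝ)) 1).2 hR.lim).const_mul _)
  rw [mul_zero, add_zero] at hlim
  exact ge_of_tendsto hlim (eventually_atTop.2 ⟨1, key⟩)

/-! ## Finite-range interactions -/

/-- the sets that contribute to the energy at the origin -/
noncomputable def pw (n : ℕ) : Finset (Finset ℤ) := ((Ico (0 : ℤ) n).powerset).filter fun Λ => 0 ∈ Λ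

/-- the energy at the origin -/
noncomputable def Bf (Ψ : Interaction) (n : ℕ) (X : Conf) : ℝ := ∑ Λ ∈ pw n, Ψ.val Λ X

lemma Bf_loc (Ψ : Interaction) (n : ℕ) : Loc n (Bf Ψ n) := by
  intro X Y h
  unfold Bf
  refine sum_congr rfl fun Λ hΛ => Ψ.loc Λ X Y fun i hi => ?_
  unfold pw at hΛ
  rw [mem_filter, mem_powerset] at hΛ
  have := mem_Ico.1 (hΛ.1 hi)
  exact h i this.1 this.2

lemma val_tau (Ψ : Interaction) (i : ℤ) (Λ : Finset ℤ) (Y : Conf) :
    Ψ.val (tau i Λ) Y = Ψ.val Λ (shift (-i) Y) := by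
  have h := Ψ.inv i Λ (shift (-i) Y)
  rw [shift_shift] at h
  exact h

lemma tau_inj {n : ℕ} {i j : ℤ} {Λ Λ' : Finset ℤ} (h1 : Λ ∈ pw n) (h2 : Λ' ∈ pw n)
    (h : tau i Λ = tau j Λ') : i = j ∧ Λ = Λ' := by
  unfold pw at h1 h2
  rw [mem_filter, mem_powerset] at h1 h2
  have key : ∀ {i j : ℤ} {Λ Λ' : Finset ℤ}, Λ ⊆ Ico (0 : ℤ) n → 0 ∈ Λ' → tau i Λ = tau j Λ' →
      i ≤ j := by
    intro i j Λ Λ' h1 h2 h
    have h3 : j ∈ tau j Λ' := by simp [tau, h2]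
    rw [← h] at h3
    simp only [tau, Equiv.coe_fn_mk, mem_image] at h3
    obtain ⟨l, hl, h4⟩ := h3
    have := (mem_Ico.1 (h1 hl)).1
    omega
  have hij : i = j := le_antisymm (key h1.1 h2.2 h) (key h2.1 h1.2 h.symm)
  subst hij
  exact ⟨rfl, (tau i).injective h⟩

/-- the range of a finite-range interaction -/
lemma finRange_nat {Ψ : Interaction} (h : FinRange Ψ) : ∃ n : ℕ, 1 ≤ n ∧ ∀ Λ : Finset ℤ,
    (∃ i ∈ Λ, ∃ j ∈ Λ, (n : ℤ) ≤ j - i) → ∀ X, Ψ.val Λ X = 0 := by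
  obtain ⟨r, hr⟩ := h
  refine ⟨r.toNat + 1, by omega, fun Λ ⟨i, hi, j, hj, h⟩ X => hr Λ ⟨i, hi, j, hj, ?_⟩ X⟩
  push_cast at h
  omega

lemma rel_fin {Ψ : Interaction} {n : ℕ} (hn : ∀ Λ : Finset ℤ,
    (∃ i ∈ Λ, ∃ j ∈ Λ, (n : ℤ) ≤ j - i) → ∀ X, Ψ.val Λ X = 0) {X Y : Conf} {N₀ : ℕ}
    (hN : ∀ i, Y i ≠ X i → -(N₀ : ℤ) ≤ i ∧ i < N₀) :
    rel Ψ Y X = ∑ i ∈ Ico (-((N₀ + n : ℕ) : ℤ)) ((N₀ + n : ℕ) : ℤ),
      (Bf Ψ n (shift (-i) Y) - Bf Ψ n (shift (-i) X)) := by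
  classical
  set T : Finset (Finset ℤ) := ((Ico (-((N₀ + n : ℕ) : ℤ)) ((N₀ + n : ℕ) : ℤ)) ×ˢ pw n).image
    fun x => tau x.1 x.2 with hT
  have h1 : rel Ψ Y X = ∑ Λ ∈ T, (Ψ.val Λ Y - Ψ.val Λ X) := by
    refine tsum_eq_sum fun Λ hΛ => ?_
    by_contra hne
    apply hΛ
    -- a site where the two configurations differ
    obtain ⟨d, hd, hd2⟩ : ∃ d ∈ Λ, Y d ≠ X d := by
      by_contra hcon
      apply hne
      rw [Ψ.loc Λ Y X fun i hi => by
        by_contra h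
        exact hcon ⟨i, hi, h⟩, sub_self]
    have hdN := hN d hd2
    have hsmall : ∀ i ∈ Λ, ∀ j ∈ Λ, j - i < n := by
      intro i hi j hj
      by_contra hcon
      apply hne
      rw [hn Λ ⟨i, hi, j, hj, not_lt.1 hcon⟩, hn Λ ⟨i, hi, j, hj, not_lt.1 hcon⟩, sub_self]
    have hne' : Λ.Nonempty := ⟨d, hd⟩
    set m := Λ.min' hne' with hm
    have hmΛ : m ∈ Λ := Λ.min'_mem hne'
    have hmle : ∀ i ∈ Λ, m ≤ i := fun i hi => Λ.min'_le i hi
    rw [hT, mem_image]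
    refine ⟨(m, (tau m).symm Λ), ?_, (tau m).apply_symm_apply Λ⟩
    rw [mem_product, mem_Ico]
    have a1 := hmle d hd
    have a2 := hsmall m hmΛ d hd
    refine ⟨⟨by push_cast; omega, by push_cast; omega⟩, ?_⟩
    unfold pw
    rw [mem_filter, mem_powerset]
    have hsymm : ∀ i, i ∈ (tau m).symm Λ ↔ ∃ j ∈ Λ, j - m = i := fun i => by
      show i ∈ Λ.image (fun i => i - m) ↔ _
      rw [mem_image]
    constructor
    · intro i hi
      rw [hsymm] at hi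
      obtain ⟨j, hj, rfl⟩ := hi
      rw [mem_Ico]
      have := hmle j hj
      have := hsmall m hmΛ j hj
      omega
    · exact (hsymm 0).2 ⟨m, hmΛ, by ring⟩
  rw [h1, hT, sum_image, sum_product]
  · refine sum_congr rfl fun i _ => ?_
    unfold Bf
    rw [← sum_sub_distrib]
    refine sum_congr rfl fun Λ _ => ?_
    simp only [val_tau]
  · rintro ⟨i, Λ⟩ h1 ⟨j, Λ'⟩ h2 h
    simp only [coe_product, Set.mem_prod, mem_coe] at h1 h2 h
    obtain ⟨rfl, rfl⟩ := tau_inj h1.2 h2.2 h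
    rfl

lemma zz_abs (X : Conf) (i : ℤ) : |zz X i| ≤ 1 := by
  rcases zz_cases X i with ⟨_, h⟩ | ⟨_, h⟩ <;> rw [h] <;> simp

/-- a local function is affine up to a bounded error that vanishes on good windows -/
lemma loc_aff (h0 : 0 < φ) (h1 : φ < 1) {n : ℕ} {F : Conf → ℝ} (hF : Loc n F) {M : ℝ}
    (hM : ∀ X, |F X| ≤ M) : ∃ b0 : ℝ, ∃ b : ℕ → ℝ, ∃ C : ℝ, 0 ≤ C ∧ ∀ X : Conf,
      |F X - (b0 + ∑ l ∈ range n, b l * (zz X l - φ))| ≤ C ∧
      (G (hgt φ X) 0 n → F X - (b0 + ∑ l ∈ range n, b l * (zz X l - φ)) = 0) := by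
  obtain ⟨b0, b, hb⟩ := aff_of_loc (φ := φ) n n le_rfl F hF
  refine ⟨b0, b, M + (|b0| + ∑ l ∈ range n, |b l| * 2), ?_, fun X => ⟨?_, fun hX => ?_⟩⟩
  · have := (abs_nonneg _).trans (hM fun _ => 0)
    have h2 : 0 ≤ ∑ l ∈ range n, |b l| * 2 := sum_nonneg fun l _ => by positivity
    have h3 := abs_nonneg b0
    linarith
  · refine (abs_sub _ _).trans (add_le_add (hM X) ((abs_add_le _ _).trans
      (add_le_add le_rfl ((abs_sum_le_sum_abs _ _).trans (sum_le_sum fun l _ => ?_)))))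
    rw [abs_mul]
    have : |zz X l - φ| ≤ 2 := by
      refine (abs_sub _ _).trans ?_
      have := zz_abs X l
      rw [abs_of_pos h0]
      linarith
    gcongr
  · rw [hb X hX]; ring

lemma G_shift (X : Conf) (i : ℤ) (n : ℕ) :
    G (hgt φ (shift (-i) X)) 0 n ↔ G (hgt φ X) i (i + n) := by
  have h := G_congr (φ := φ) (X := shift (-i) X) (Y := X) (a := 0) (b := n) (c := i)
    fun l _ _ => by simp [shift]
  rw [h, zero_add, add_comm (n : ℤ) i]

/-- **Finite-range perturbations are controlled by the energy.** -/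
theorem fin_le (h0 : 0 < φ) (h1 : φ < 1) (hR : Adm φ R) {Ψ : Interaction} (hΨ : FinRange Ψ) :
    ∃ C : ℝ, 0 ≤ C ∧ ∀ X ∈ Good φ, ∀ Y, Exc Y X → |rel Ψ Y X| ≤ C * rel (Win φ R) Y X := by
  classical
  obtain ⟨n, hn1, hn⟩ := finRange_nat hΨ
  obtain ⟨b0, b, C, hC0, hC⟩ := loc_aff h0 h1 (Bf_loc Ψ n) (M := ∑ Λ ∈ pw n, nrm Ψ Λ) fun X =>
    (abs_sum_le_sum_abs _ _).trans (sum_le_sum fun Λ _ => val_le Ψ Λ X)
  have hcf := cf_pos hR.toBd n
  refine ⟨C / cf R n + 2688 * |∑ l ∈ range n, b l|, by positivity, fun X hX Y hXY => ?_⟩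
  obtain ⟨N₀, hN⟩ : ∃ N₀ : ℕ, ∀ i, Y i ≠ X i → -(N₀ : ℤ) ≤ i ∧ i < N₀ := by
    refine ⟨hXY.toFinset.sup (fun i => i.natAbs + 1), fun i hi => ?_⟩
    have h3 : i.natAbs + 1 ≤ hXY.toFinset.sup (fun i => i.natAbs + 1) :=
      Finset.le_sup (f := fun i : ℤ => i.natAbs + 1) (hXY.mem_toFinset.2 hi)
    omega
  rw [rel_fin hn hN]
  set N := N₀ + n with hNdef
  set E : Conf → ℝ := fun X => Bf Ψ n X - (b0 + ∑ l ∈ range n, b l * (zz X l - φ)) with hE
  have hEX : ∀ i : ℤ, E (shift (-i) X) = 0 := fun i => (hC _).2 ((G_shift X i n).2 (hX _ _))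
  have hEY : ∀ i : ℤ, |E (shift (-i) Y)| ≤ C / cf R n * (Win φ R).val (Ico i (i + n)) Y := by
    intro i
    by_cases hG : G (hgt φ Y) i (i + n)
    · have : E (shift (-i) Y) = 0 := (hC _).2 ((G_shift Y i n).2 hG)
      rw [this, abs_zero]
      exact mul_nonneg (by positivity) (win_nonneg hR.toBd _ _)
    · rw [win_Ico Y i n hG, div_mul_cancel₀ _ hcf.ne']
      exact (hC _).1
  have hsum : ∑ i ∈ Ico (-(N : ℤ)) N, (Bf Ψ n (shift (-i) Y) - Bf Ψ n (shift (-i) X)) =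
      ∑ i ∈ Ico (-(N : ℤ)) N, E (shift (-i) Y) + (∑ l ∈ range n, b l) * dl N₀ Y X := by
    have e1 : ∀ i : ℤ, Bf Ψ n (shift (-i) Y) - Bf Ψ n (shift (-i) X) =
        E (shift (-i) Y) + ∑ l ∈ range n, b l * (zz Y (i + l) - zz X (i + l)) := by
      intro i
      have h2 := hEX i
      have z1 : ∀ (Z : Conf) (l : ℕ), zz (shift (-i) Z) l = zz Z (i + l) := fun Z l => by
        apply zz_congr
        show Z (l - -i) = Z (i + l)
        congr 1; ring
      simp only [hE, z1] at h2 ⊢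
      have e2 : ∑ l ∈ range n, b l * (zz Y (i + l) - zz X (i + l)) =
          ∑ l ∈ range n, b l * (zz Y (i + l) - φ) - ∑ l ∈ range n, b l * (zz X (i + l) - φ) := by
        rw [← sum_sub_distrib]
        exact sum_congr rfl fun l _ => by ring
      rw [e2]
      linarith
    rw [sum_congr rfl fun i _ => e1 i, sum_add_distrib, sum_comm, sum_mul]
    congr 1
    refine sum_congr rfl fun l hl => ?_
    rw [mem_range] at hl
    rw [← mul_sum]
    congr 1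
    -- translate the sum
    have e3 : ∑ i ∈ Ico (-(N : ℤ)) N, (zz Y (i + l) - zz X (i + l)) =
        ∑ i ∈ Ico (-(N : ℤ) + l) (N + l), (zz Y i - zz X i) := by
      refine sum_bij (fun i _ => i + l) ?_ ?_ ?_ fun i _ => rfl
      · intro i hi; rw [mem_Ico] at *; omega
      · intro i _ j _ h; omega
      · intro i hi; rw [mem_Ico] at hi; exact ⟨i - l, by rw [mem_Ico]; omega, by ring⟩
    rw [e3]
    unfold dl
    symm
    refine sum_subset (fun i hi => ?_) fun i _ hi => ?_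
    · rw [mem_Ico] at *; omega
    · have : Y i = X i := by
        by_contra hne
        exact hi (mem_Ico.2 (hN i hne))
      rw [zz_congr this]; ring
  rw [hsum]
  have hd := dl_le h0 h1 hR hX hXY hN
  have hw : ∑ i ∈ Ico (-(N : ℤ)) N, (Win φ R).val (Ico i (i + n)) Y ≤ rel (Win φ R) Y X := by
    refine le_trans (le_of_eq ?_) (win_rel hR hX hXY ((Ico (-(N : ℤ)) N).image
      fun i => Ico i (i + n)))
    rw [sum_image]
    intro i _ j _ h
    exact Ico_inj (by omega) h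
  calc |∑ i ∈ Ico (-(N : ℤ)) N, E (shift (-i) Y) + (∑ l ∈ range n, b l) * dl N₀ Y X|
      ≤ |∑ i ∈ Ico (-(N : ℤ)) N, E (shift (-i) Y)| + |∑ l ∈ range n, b l| * |dl N₀ Y X| := by
        refine (abs_add_le _ _).trans ?_
        rw [abs_mul]
    _ ≤ ∑ i ∈ Ico (-(N : ℤ)) N, C / cf R n * (Win φ R).val (Ico i (i + n)) Y +
          |∑ l ∈ range n, b l| * (2688 * rel (Win φ R) Y X) := by
        gcongr
        exact (abs_sum_le_sum_abs _ _).trans (sum_le_sum fun i _ => hEY i)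
    _ ≤ C / cf R n * rel (Win φ R) Y X + |∑ l ∈ range n, b l| * (2688 * rel (Win φ R) Y X) := by
        rw [← mul_sum]
        gcongr
    _ = _ := by ring

end Pool.Agent.Y660.ST
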