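import Pool.Agent.Y660.ST.Meas

/-!
# Uniqueness of the ground state
-/

set_option autoImplicit false

namespace Pool.Agent.Y660.ST

open Finset Filter MeasureTheory

variable {φ : ℝ} {R : ℕ → ℝ}

/-- the configuration that equals `Z` on `[-N, N)` and `Y` outside -/
def mix (N : ℕ) (Z Y : Conf) : Conf := fun i => if -(N : ℤ) ≤ i ∧ i < N then Z i else Y i

lemma mix_in {N : ℕ} {Z Y : Conf} {i : ℤ} (h1 : -(N : ℤ) ≤ i) (h2 : i < N) :
    mix N Z Y i = Z i := if_pos ⟨h1, h2⟩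

lemma mix_out {N : ℕ} {Z Y : Conf} {i : ℤ} (h : ¬ (-(N : ℤ) ≤ i ∧ i < N)) :
    mix N Z Y i = Y i := if_neg h

lemma mix_ne {N : ℕ} {Z Y : Conf} {i : ℤ} (h : mix N Z Y i ≠ Y i) : -(N : ℤ) ≤ i ∧ i < N := by
  by_contra hc
  exact h (mix_out hc)

lemma mix_exc (N : ℕ) (Z Y : Conf) : Exc (mix N Z Y) Y :=
  (Finset.finite_toSet (Ico (-(N : ℤ)) N)).subset fun i hi => by
    have := mix_ne hi
    simpa using this

/-- the energy gained by replacing `Y` by a good configuration in a box -/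
lemma box_win (hR : Adm φ R) {Z : Conf} (hZ : Z ∈ Good φ) (Y : Conf) {N m : ℕ} (hm : m ≤ N) :
    rel (Win φ R) (mix N Z Y) Y ≤ 2 * NN (Win φ R) -
      ∑ i ∈ Ico (-((N - m : ℕ) : ℤ)) ((N - m : ℕ) : ℤ), en R (hgt φ Y) m i := by
  classical
  set W := Win φ R with hW
  set S := wins (N - m) m with hS
  have hsm := win_summable hR
  rw [← hW] at hsm
  have h1 : HasSum (fun Λ => if Λ ∈ S then W.val Λ Y else 0) (∑ Λ ∈ S, W.val Λ Y) := by
    have h : HasSum (fun Λ => if Λ ∈ S then W.val Λ Y else 0)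
        (∑ Λ ∈ S, if Λ ∈ S then W.val Λ Y else 0) :=
      hasSum_sum_of_ne_finset_zero fun Λ hΛ => if_neg hΛ
    rwa [sum_congr rfl fun Λ hΛ => if_pos hΛ] at h
  have h2 : HasSum (fun Λ => nd W (-(N : ℤ)) Λ + nd W N Λ - if Λ ∈ S then W.val Λ Y else 0)
      (NN W + NN W - ∑ Λ ∈ S, W.val Λ Y) := by
    have a1 := (summable_nd hsm (-(N : ℤ))).hasSum
    have a2 := (summable_nd hsm (N : ℤ)).hasSum
    rw [tsum_nd] at a1 a2
    exact (a1.add a2).sub h1
  have h3 := wins_sum hR.toBd Y (N - m) m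
  have hz : ∀ Λ : Finset ℤ, (∀ i ∈ Λ, -(N : ℤ) ≤ i ∧ i < N) → W.val Λ (mix N Z Y) = 0 := by
    intro Λ hΛ
    rw [W.loc Λ (mix N Z Y) Z fun i hi => mix_in (hΛ i hi).1 (hΛ i hi).2]
    exact win_good hZ Λ
  have key : ∀ Λ, W.val Λ (mix N Z Y) - W.val Λ Y ≤
      nd W (-(N : ℤ)) Λ + nd W N Λ - if Λ ∈ S then W.val Λ Y else 0 := by
    intro Λ
    have n1 := nd_nonneg W (-(N : ℤ)) Λ
    have n2 := nd_nonneg W N Λ
    have n3 : 0 ≤ W.val Λ Y := win_nonneg hR.toBd Λ Y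
    by_cases hbox : ∀ i ∈ Λ, -(N : ℤ) ≤ i ∧ i < N
    · rw [hz Λ hbox]
      split_ifs <;> linarith
    · have hnS : Λ ∉ S := by
        intro hΛ
        apply hbox
        rw [hS] at hΛ
        unfold wins at hΛ
        rw [mem_image] at hΛ
        obtain ⟨⟨i, r⟩, hx, rfl⟩ := hΛ
        rw [mem_product, mem_Ico, mem_Icc] at hx
        intro j hj
        rw [mem_Ico] at hj
        simp only at hj hx
        omega
      rw [if_neg hnS, sub_zero]
      by_cases hout : ∀ i ∈ Λ, ¬ (-(N : ℤ) ≤ i ∧ i < N)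
      · rw [W.loc Λ (mix N Z Y) Y fun i hi => mix_out (hout i hi)]
        linarith
      · by_cases hiv : ∃ a : ℤ, Λ = Ico a (a + Λ.card)
        · obtain ⟨a, ha⟩ := hiv
          have hmem : ∀ i, i ∈ Λ ↔ a ≤ i ∧ i < a + Λ.card := fun i => by
            rw [← mem_Ico, ← ha]
          simp only [not_forall, exists_prop, not_not] at hbox hout
          obtain ⟨x, hx, hx2⟩ := hbox
          obtain ⟨y, hy, hy2⟩ := hout
          rw [hmem] at hx hy
          have hv := (le_abs_self _).trans (val_le W Λ (mix N Z Y))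
          rcases (by omega : (a ≤ -(N : ℤ) ∧ -(N : ℤ) < a + Λ.card) ∨
            (a ≤ (N : ℤ) ∧ (N : ℤ) < a + Λ.card)) with h | h
          · have : nd W (-(N : ℤ)) Λ = nrm W Λ := by
              unfold nd
              rw [if_pos ((hmem _).2 h)]
            linarith
          · have : nd W N Λ = nrm W Λ := by
              unfold nd
              rw [if_pos ((hmem _).2 h)]
            linarith
        · have a1 : W.val Λ (mix N Z Y) = 0 := win_zero hiv _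
          rw [a1]
          linarith
  have h4 : rel W (mix N Z Y) Y ≤ NN W + NN W - ∑ Λ ∈ S, W.val Λ Y := by
    unfold rel
    exact hasSum_le key (summable_rel hsm (mix_exc N Z Y)).hasSum h2
  linarith

/-- the energy of the perturbation -/
lemma box_fin {Ψ : Interaction} {n : ℕ} (hn1 : 1 ≤ n) (hn : ∀ Λ : Finset ℤ,
    (∃ i ∈ Λ, ∃ j ∈ Λ, (n : ℤ) ≤ j - i) → ∀ X, Ψ.val Λ X = 0) {b0 : ℝ} {b : ℕ → ℝ}
    (hb : ∀ X : Conf, G (hgt φ X) 0 n →
      Bf Ψ n X - (b0 + ∑ l ∈ range n, b l * (zz X l - φ)) = 0) {M : ℝ}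
    (hM : ∀ X, |Bf Ψ n X| ≤ M) {Z : Conf} (hZ : Z ∈ Good φ) (Y : Conf) {N : ℕ} (hN : n ≤ N) :
    rel Ψ (mix N Z Y) Y ≤ ∑ i ∈ Ico (-(N : ℤ)) ((N - n : ℕ) : ℤ), (b0 - Bf Ψ n (shift (-i) Y)) +
      (∑ l ∈ range n, |b l| + 6 * n * M) := by
  rw [rel_fin hn (N₀ := N) fun i => mix_ne]
  have hM0 : 0 ≤ M := (abs_nonneg _).trans (hM fun _ => 0)
  have hsplit : Ico (-((N + n : ℕ) : ℤ)) ((N + n : ℕ) : ℤ) =
      Ico (-((N + n : ℕ) : ℤ)) (-(N : ℤ)) ∪ (Ico (-(N : ℤ)) ((N - n : ℕ) : ℤ) ∪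
        Ico ((N - n : ℕ) : ℤ) ((N + n : ℕ) : ℤ)) := by
    ext i; simp only [mem_Ico, mem_union]; omega
  rw [hsplit, sum_union, sum_union]
  · have t1 : ∀ i : ℤ, Bf Ψ n (shift (-i) (mix N Z Y)) - Bf Ψ n (shift (-i) Y) ≤ 2 * M := by
      intro i
      have a1 := (abs_le.1 (hM (shift (-i) (mix N Z Y)))).2
      have a2 := (abs_le.1 (hM (shift (-i) Y))).1
      linarith
    have s1 : ∑ i ∈ Ico (-((N + n : ℕ) : ℤ)) (-(N : ℤ)),
        (Bf Ψ n (shift (-i) (mix N Z Y)) - Bf Ψ n (shift (-i) Y)) ≤ n * (2 * M) := by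
      refine (sum_le_sum fun i _ => t1 i).trans ?_
      rw [sum_const, Int.card_Ico, nsmul_eq_mul]
      have : (-(N : ℤ) - -((N + n : ℕ) : ℤ)).toNat = n := by omega
      rw [this]
    have s2 : ∑ i ∈ Ico ((N - n : ℕ) : ℤ) ((N + n : ℕ) : ℤ),
        (Bf Ψ n (shift (-i) (mix N Z Y)) - Bf Ψ n (shift (-i) Y)) ≤ (2 * n) * (2 * M) := by
      refine (sum_le_sum fun i _ => t1 i).trans ?_
      rw [sum_const, Int.card_Ico, nsmul_eq_mul]
      have : (((N + n : ℕ) : ℤ) - ((N - n : ℕ) : ℤ)).toNat = 2 * n := by omega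
      rw [this]; push_cast; exact le_rfl
    have s3 : ∑ i ∈ Ico (-(N : ℤ)) ((N - n : ℕ) : ℤ),
        (Bf Ψ n (shift (-i) (mix N Z Y)) - Bf Ψ n (shift (-i) Y)) =
        ∑ i ∈ Ico (-(N : ℤ)) ((N - n : ℕ) : ℤ), (b0 - Bf Ψ n (shift (-i) Y)) +
        ∑ l ∈ range n, b l * ∑ i ∈ Ico (-(N : ℤ)) ((N - n : ℕ) : ℤ), (zz Z (i + l) - φ) := by
      have e1 : ∀ i ∈ Ico (-(N : ℤ)) ((N - n : ℕ) : ℤ),
          Bf Ψ n (shift (-i) (mix N Z Y)) - Bf Ψ n (shift (-i) Y) =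
          (b0 - Bf Ψ n (shift (-i) Y)) + ∑ l ∈ range n, b l * (zz Z (i + l) - φ) := by
        intro i hi
        rw [mem_Ico] at hi
        have e2 : Bf Ψ n (shift (-i) (mix N Z Y)) = Bf Ψ n (shift (-i) Z) := by
          refine Bf_loc Ψ n _ _ fun j h1 h2 => ?_
          exact mix_in (by omega) (by omega)
        have e3 := hb (shift (-i) Z) ((G_shift Z i n).2 (hZ _ _))
        have e4 : ∑ l ∈ range n, b l * (zz (shift (-i) Z) l - φ) =
            ∑ l ∈ range n, b l * (zz Z (i + l) - φ) := by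
          refine sum_congr rfl fun l _ => ?_
          rw [zz_congr (show shift (-i) Z l = Z (i + l) by
            show Z (l - -i) = Z (i + l)
            congr 1; ring)]
        rw [e4] at e3
        rw [e2]
        linarith
      rw [sum_congr rfl e1, sum_add_distrib, sum_comm]
      congr 1
      exact sum_congr rfl fun l _ => (mul_sum _ _ _).symm
    have s4 : ∀ l ∈ range n, b l * ∑ i ∈ Ico (-(N : ℤ)) ((N - n : ℕ) : ℤ), (zz Z (i + l) - φ) ≤
        |b l| := by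
      intro l _
      have e1 : ∑ i ∈ Ico (-(N : ℤ)) ((N - n : ℕ) : ℤ), (zz Z (i + l) - φ) =
          ∑ i ∈ Ico (-(N : ℤ) + l) ((N - n : ℕ) + l : ℤ), (zz Z i - φ) := by
        refine sum_bij (fun i _ => i + l) ?_ ?_ ?_ fun i _ => rfl
        · intro i hi; rw [mem_Ico] at *; omega
        · intro i _ j _ h; omega
        · intro i hi; rw [mem_Ico] at hi; exact ⟨i - l, by rw [mem_Ico]; omega, by ring⟩
      rw [e1, ← hgt_sub φ Z (by omega)]
      have g := hZ (-(N : ℤ) + l) ((N - n : ℕ) + l : ℤ)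
      have g1 := g _ ⟨le_rfl, by omega⟩ _ ⟨by omega, le_rfl⟩
      have g2 := g ((N - n : ℕ) + l : ℤ) ⟨by omega, le_rfl⟩ _ ⟨le_rfl, by omega⟩
      refine (le_abs_self _).trans ?_
      rw [abs_mul]
      have : |hgt φ Z ((N - n : ℕ) + l : ℤ) - hgt φ Z (-(N : ℤ) + l)| ≤ 1 := by
        rw [abs_le]; constructor <;> linarith
      calc |b l| * _ ≤ |b l| * 1 := by gcongr
        _ = _ := mul_one _
    rw [s3]
    have s5 := sum_le_sum s4
    linarith
  · rw [Finset.disjoint_left]; intro i; simp only [mem_Ico]; omega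
  · rw [Finset.disjoint_left]; intro i; simp only [mem_Ico, mem_union]; omega

end Pool.Agent.Y660.ST
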