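import Pool.Agent.Y660.ST.Inter

/-!
# The interaction that penalises the bad windows is summable
-/

set_option autoImplicit false

namespace Pool.Agent.Y660.ST

open Finset Filter

/-- admissible bounds -/
structure Adm (φ : ℝ) (R : ℕ → ℝ) : Prop extends Bd φ R where
  sm : Summable fun m : ℕ => R m / (m : ℝ) ^ 2
  lim : Tendsto (fun m : ℕ => R m / (m : ℝ)) atTop (nhds 0)

variable {φ : ℝ} {R : ℕ → ℝ}

lemma G_self (s : ℤ → ℝ) (a : ℤ) : G s a a := by
  intro i hi j hj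
  have h1 : i = a := le_antisymm hi.2 hi.1
  have h2 : j = a := le_antisymm hj.2 hj.1
  rw [h1, h2]; simp

lemma Ico_inj {a b : ℤ} {n : ℕ} (hn : 0 < n) (h : Ico a (a + n) = Ico b (b + n)) : a = b := by
  have h1 : a ∈ Ico b (b + n) := by rw [← h, mem_Ico]; omega
  have h2 : b ∈ Ico a (a + n) := by rw [h, mem_Ico]; omega
  rw [mem_Ico] at h1 h2
  omega

lemma win_Ico (X : Conf) (a : ℤ) (n : ℕ) (h : ¬ G (hgt φ X) a (a + n)) :
    (Win φ R).val (Ico a (a + n)) X = cf R n := by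
  have hc : (Ico a (a + (n : ℤ))).card = n := by simp
  rw [win_val, if_pos ⟨a, by rw [hc], by rw [hc]; exact h⟩, hc]

lemma win_nonneg (hR : Bd φ R) (Λ : Finset ℤ) (X : Conf) : 0 ≤ (Win φ R).val Λ X := by
  rw [win_val]
  split_ifs
  · exact cf_nonneg hR _
  · exact le_rfl

lemma win_good {X : Conf} (hX : X ∈ Good φ) (Λ : Finset ℤ) : (Win φ R).val Λ X = 0 := by
  rw [win_val]
  rw [if_neg]
  rintro ⟨a, _, h⟩
  exact h (hX _ _)

lemma win_zero {Λ : Finset ℤ} (h : ¬ ∃ a : ℤ, Λ = Ico a (a + Λ.card)) (X : Conf) :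
    (Win φ R).val Λ X = 0 := by
  rw [win_val]
  rw [if_neg]
  rintro ⟨a, ha, _⟩
  exact h ⟨a, ha⟩

lemma win_le (hR : Bd φ R) (Λ : Finset ℤ) (X : Conf) : (Win φ R).val Λ X ≤ cf R Λ.card := by
  rw [win_val]
  split_ifs
  · exact le_rfl
  · exact cf_nonneg hR _

/-- the windows containing the origin -/
noncomputable def ev (x : ℕ × ℕ) : {Λ : Finset ℤ // 0 ∈ Λ} :=
  ⟨Ico (-(x.1 : ℤ)) (x.2 + 1), by rw [mem_Ico]; omega⟩

lemma ev_inj : Function.Injective ev := by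
  rintro ⟨p, q⟩ ⟨p', q'⟩ h
  have h1 : Ico (-(p : ℤ)) (q + 1) = Ico (-(p' : ℤ)) (q' + 1) := congrArg Subtype.val h
  have a1 : -(p : ℤ) ∈ Ico (-(p' : ℤ)) (q' + 1) := by rw [← h1, mem_Ico]; omega
  have a2 : -(p' : ℤ) ∈ Ico (-(p : ℤ)) (q + 1) := by rw [h1, mem_Ico]; omega
  have a3 : (q : ℤ) ∈ Ico (-(p' : ℤ)) (q' + 1) := by rw [← h1, mem_Ico]; omega
  have a4 : (q' : ℤ) ∈ Ico (-(p : ℤ)) (q + 1) := by rw [h1, mem_Ico]; omega
  rw [mem_Ico] at a1 a2 a3 a4
  ext <;> simp only <;> omega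

lemma summable_cf (hR : Adm φ R) : Summable fun x : ℕ × ℕ => cf R (x.1 + x.2 + 1) := by
  refine (Equiv.summable_iff (Finset.HasAntidiagonal.sigmaAntidiagonalEquivProd (A := ℕ))).1 ?_
  have h0 : ∀ n : ℕ, 0 ≤ cf R n := cf_nonneg hR.toBd
  refine (summable_sigma_of_nonneg fun x => h0 _).2 ⟨fun n => Summable.of_finite, ?_⟩
  have e : ∀ n : ℕ, ∑' x : HasAntidiagonal.antidiagonal n, ((fun x : ℕ × ℕ => cf R (x.1 + x.2 + 1)) ∘
      (Finset.HasAntidiagonal.sigmaAntidiagonalEquivProd (A := ℕ))) ⟨n, x⟩ = ((n : ℝ) + 1) * cf R (n + 1) := by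
    intro n
    rw [tsum_fintype]
    have : ∀ x : HasAntidiagonal.antidiagonal n, ((fun x : ℕ × ℕ => cf R (x.1 + x.2 + 1)) ∘
      (Finset.HasAntidiagonal.sigmaAntidiagonalEquivProd (A := ℕ))) ⟨n, x⟩ = cf R (n + 1) := by
      rintro ⟨⟨p, q⟩, hx⟩
      rw [HasAntidiagonal.mem_antidiagonal] at hx
      show cf R (p + q + 1) = _
      rw [← hx]
    rw [sum_congr rfl fun x _ => this x]
    simp [Finset.Nat.card_antidiagonal]
  suffices hs : Summable fun n : ℕ => ((n : ℝ) + 1) * cf R (n + 1) from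
    hs.congr fun n => (e n).symm
  have h2 : Summable fun n : ℕ => R (n + 2) / ((n + 2 : ℕ) : ℝ) ^ 2 :=
    (summable_nat_add_iff (f := fun m : ℕ => R m / (m : ℝ) ^ 2) 2).2 hR.sm
  refine Summable.of_nonneg_of_le (fun n => by have := h0 (n + 1); positivity) (fun n => ?_) h2
  unfold cf
  have h3 := hR.toBd.nonneg (n + 2)
  have e2 : n + 1 + 1 = n + 2 := rfl
  rw [e2]
  push_cast
  rw [← mul_div_assoc, div_le_div_iff₀ (by positivity) (by positivity)]
  have h4 : ((n : ℝ) + 1) * ((n : ℝ) + 2) ^ 2 ≤ ((n : ℝ) + 1 + 1) ^ 3 := by nlinarith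
  nlinarith [mul_le_mul_of_nonneg_left h4 h3]

lemma win_summable (hR : Adm φ R) : IsSummable (Win φ R) := by
  classical
  set g : {Λ : Finset ℤ // 0 ∈ Λ} → ℝ := fun Λ =>
    if ∃ a : ℤ, Λ.1 = Ico a (a + Λ.1.card) then cf R Λ.1.card else 0 with hg
  have h1 : Summable (g ∘ ev) := by
    refine (summable_cf hR).congr fun x => ?_
    have hc : (Ico (-(x.1 : ℤ)) (x.2 + 1)).card = x.1 + x.2 + 1 := by
      rw [Int.card_Ico]; omega
    have : ∃ a : ℤ, Ico (-(x.1 : ℤ)) (x.2 + 1) = Ico a (a + (Ico (-(x.1 : ℤ)) (x.2 + 1)).card) := by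
      refine ⟨-(x.1 : ℤ), ?_⟩
      rw [hc]
      congr 1
      push_cast
      ring
    simp only [hg, Function.comp, ev]
    rw [if_pos this, hc]
  have h2 : Summable g := by
    refine (ev_inj.summable_iff ?_).1 h1
    rintro ⟨Λ, h0⟩ hΛ
    simp only [hg]
    rw [if_neg]
    rintro ⟨a, ha⟩
    apply hΛ
    have h3 : (0 : ℤ) ∈ Ico a (a + Λ.card) := by rw [← ha]; exact h0
    rw [mem_Ico] at h3
    refine ⟨((-a).toNat, (a + Λ.card - 1).toNat), ?_⟩
    apply Subtype.ext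
    show Ico (-(((-a).toNat : ℕ) : ℤ)) (((a + Λ.card - 1).toNat : ℤ) + 1) = Λ
    have e1 : -(((-a).toNat : ℕ) : ℤ) = a := by omega
    have e2 : (((a + Λ.card - 1).toNat : ℤ) + 1) = a + Λ.card := by omega
    rw [e1, e2]
    exact ha.symm
  refine Summable.of_nonneg_of_le (fun Λ => nrm_nonneg _ _) (fun Λ => ?_) h2
  refine nrm_le fun X => ?_
  rw [abs_of_nonneg (win_nonneg hR.toBd _ _)]
  simp only [hg]
  split_ifs with h
  · exact win_le hR.toBd _ _
  · exact (win_zero h X).le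

/-- the relative energy with respect to a good configuration is at least the energy in finitely
many windows -/
lemma win_rel (hR : Adm φ R) {X Y : Conf} (hX : X ∈ Good φ) (hXY : Exc Y X)
    (S : Finset (Finset ℤ)) : ∑ Λ ∈ S, (Win φ R).val Λ Y ≤ rel (Win φ R) Y X := by
  have h1 := summable_rel (win_summable hR) hXY
  have e : ∀ Λ, (Win φ R).val Λ Y - (Win φ R).val Λ X = (Win φ R).val Λ Y := fun Λ => by
    rw [win_good hX, sub_zero]
  unfold rel
  simp only [e] at h1 ⊢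
  exact h1.sum_le_tsum S fun Λ _ => win_nonneg hR.toBd Λ Y

/-- the windows centred at `i ∈ [-N, N)` -/
noncomputable def wins (N m : ℕ) : Finset (Finset ℤ) :=
  ((Ico (-(N : ℤ)) N) ×ˢ (Icc 1 m)).image fun x => Ico (x.1 - (x.2 : ℤ)) (x.1 + x.2)

lemma wins_sum (hR : Bd φ R) (Y : Conf) (N m : ℕ) :
    ∑ i ∈ Ico (-(N : ℤ)) N, en R (hgt φ Y) m i ≤ ∑ Λ ∈ wins N m, (Win φ R).val Λ Y := by
  classical
  unfold wins en
  rw [sum_image, sum_product]
  · refine sum_le_sum fun i _ => sum_le_sum fun r hr => ?_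
    split_ifs with h
    · exact win_nonneg hR _ _
    · have e1 : Ico (i - (r : ℤ)) (i + r) = Ico (i - (r : ℤ)) (i - r + (2 * r : ℕ)) := by
        congr 1; push_cast; ring
      have e2 : i - (r : ℤ) + (2 * r : ℕ) = i + r := by push_cast; ring
      rw [e1, win_Ico Y _ _ (by rw [e2]; exact h)]
  · rintro ⟨i, r⟩ h1 ⟨i', r'⟩ h2 h
    simp only [mem_coe, mem_product, mem_Ico, mem_Icc] at h1 h2 h
    have a1 : i - r ∈ Ico (i' - (r' : ℤ)) (i' + r') := by rw [← h, mem_Ico]; omega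
    have a2 : i' - r' ∈ Ico (i - (r : ℤ)) (i + r) := by rw [h, mem_Ico]; omega
    have a3 : i + r - 1 ∈ Ico (i' - (r' : ℤ)) (i' + r') := by rw [← h, mem_Ico]; omega
    have a4 : i' + r' - 1 ∈ Ico (i - (r : ℤ)) (i + r) := by rw [h, mem_Ico]; omega
    rw [mem_Ico] at a1 a2 a3 a4
    ext <;> simp only <;> omega

end Pool.Agent.Y660.ST
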